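import Pool.Agent.H854Z.LN.Del

namespace Pool.Agent.H854Z.LN

open Pool.Agent.Helper446 MeasureTheory ENNReal Encodable Set Filter Topology

variable {α β : Type} [Primcodable α] [Primcodable β]

/-- the use principle -/
theorem use_principle (p : ℕ → ℕ) (c : OCode) : ∀ n v, v ∈ c.eval p n →
    ∃ K, ∀ p' : ℕ → ℕ, (∀ i < K, p' i = p i) → v ∈ c.eval p' n := by
  induction c with
  | zero => exact fun n v h => ⟨0, fun _ _ => h⟩
  | succ => exact fun n v h => ⟨0, fun _ _ => h⟩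
  | left => exact fun n v h => ⟨0, fun _ _ => h⟩
  | right => exact fun n v h => ⟨0, fun _ _ => h⟩
  | oracle =>
    intro n v h
    refine ⟨n + 1, fun p' hp => ?_⟩
    simp only [OCode.eval, Part.mem_some_iff] at h ⊢
    rw [hp n (by omega), h]
  | pair cf cg ihf ihg =>
    intro n v h
    simp only [OCode.eval, Seq.seq, Part.map_eq_map, Part.mem_bind_iff,
      Part.mem_map_iff] at h ⊢
    obtain ⟨_, ⟨a, ha, rfl⟩, b, hb, rfl⟩ := h
    obtain ⟨K, hK⟩ := ihf n a ha
    obtain ⟨K', hK'⟩ := ihg n b hb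
    exact ⟨K + K', fun p' hp => ⟨_, ⟨a, hK p' fun i hi => hp i (by omega), rfl⟩, b,
      hK' p' fun i hi => hp i (by omega), rfl⟩⟩
  | comp cf cg ihf ihg =>
    intro n v h
    obtain ⟨a, ha, hv⟩ := Part.mem_bind_iff.1 h
    obtain ⟨K, hK⟩ := ihg n a ha
    obtain ⟨K', hK'⟩ := ihf a v hv
    exact ⟨K + K', fun p' hp => Part.mem_bind_iff.2 ⟨a, hK p' fun i hi => hp i (by omega),
      hK' p' fun i hi => hp i (by omega)⟩⟩
  | prec cf cg ihf ihg =>
    intro n
    simp only [OCode.eval]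
    generalize n.unpair.1 = a
    induction n.unpair.2 with
    | zero => exact fun v h => ihf a v h
    | succ y ih =>
      intro v h
      simp only [Part.mem_bind_iff] at h ⊢
      obtain ⟨i, hi, hv⟩ := h
      obtain ⟨K, hK⟩ := ih i hi
      obtain ⟨K', hK'⟩ := ihg _ v hv
      exact ⟨K + K', fun p' hp => ⟨i, hK p' fun i hi => hp i (by omega),
        hK' p' fun i hi => hp i (by omega)⟩⟩
  | rfind cf ih =>
    intro a v h
    have key : ∀ p' : ℕ → ℕ, v ∈ (OCode.rfind cf).eval p' a ↔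
        (∃ w ∈ cf.eval p' (Nat.pair a v), decide (w = 0) = true) ∧
          ∀ {m}, m < v → ∃ u ∈ cf.eval p' (Nat.pair a m), decide (u = 0) = false := by
      intro p'
      refine Nat.mem_rfind.trans ?_
      simp only [Part.map_eq_map, Part.mem_map_iff]
    simp only [key] at h ⊢
    obtain ⟨⟨w, hw, hw0⟩, h2⟩ := h
    have h3 : ∀ k ≤ v, ∃ K, ∀ p' : ℕ → ℕ, (∀ i < K, p' i = p i) → ∀ m < k,
        ∃ u ∈ cf.eval p' (Nat.pair a m), decide (u = 0) = false := by
      intro k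
      induction k with
      | zero => exact fun _ => ⟨0, fun _ _ m hm => absurd hm (by omega)⟩
      | succ k ihk =>
        intro hk
        obtain ⟨K, hK⟩ := ihk (by omega)
        obtain ⟨u, hu, hu0⟩ := h2 (show k < v by omega)
        obtain ⟨K', hK'⟩ := ih _ u hu
        refine ⟨K + K', fun p' hp m hm => ?_⟩
        rcases Nat.lt_succ_iff_lt_or_eq.1 hm with hm | rfl
        · exact hK p' (fun i hi => hp i (by omega)) m hm
        · exact ⟨u, hK' p' fun i hi => hp i (by omega), hu0⟩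
    obtain ⟨K, hK⟩ := h3 v le_rfl
    obtain ⟨K', hK'⟩ := ih _ w hw
    exact ⟨K + K', fun p' hp => ⟨⟨w, hK' p' fun i hi => hp i (by omega), hw0⟩,
      fun {m} hm => hK p' (fun i hi => hp i (by omega)) m hm⟩⟩

theorem partrec_const (c : OCode) :
    Partrec fun q : ℕ × ℕ => c.eval (fun _ => q.1) q.2 := by
  induction c with
  | zero => exact (Computable.const 0).partrec
  | succ => exact (Computable.succ.comp Computable.snd).partrec
  | left => exact (Computable.fst.comp (Computable.unpair.comp Computable.snd)).partrec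
  | right => exact (Computable.snd.comp (Computable.unpair.comp Computable.snd)).partrec
  | oracle => exact Computable.fst.partrec
  | pair cf cg ihf ihg =>
    have h : Partrec fun q : ℕ × ℕ => (cf.eval (fun _ => q.1) q.2).bind fun a =>
        (cg.eval (fun _ => q.1) q.2).map fun b => Nat.pair a b := by
      refine ihf.bind ?_
      refine Partrec.map (ihg.comp Computable.fst) ?_
      exact (show Computable fun x : ((ℕ × ℕ) × ℕ) × ℕ => Nat.pair x.1.2 x.2 by fun_prop)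
    refine h.of_eq fun q => ?_
    simp only [OCode.eval, Seq.seq, Part.map_eq_map, Part.bind_map]
  | comp cf cg ihf ihg =>
    refine ihg.bind ?_
    exact ihf.comp (show Computable fun x : (ℕ × ℕ) × ℕ => (x.1.1, x.2) by fun_prop)
  | prec cf cg ihf ihg =>
    refine Partrec.nat_rec (f := fun q : ℕ × ℕ => q.2.unpair.2)
      (g := fun q => cf.eval (fun _ => q.1) q.2.unpair.1)
      (h := fun q r => cg.eval (fun _ => q.1) (Nat.pair q.2.unpair.1 (Nat.pair r.1 r.2)))
      (by fun_prop) ?_ ?_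
    · exact ihf.comp (show Computable fun x : ℕ × ℕ => (x.1, x.2.unpair.1) by fun_prop)
    · exact ihg.comp (show Computable fun x : (ℕ × ℕ) × ℕ × ℕ =>
        (x.1.1, Nat.pair x.1.2.unpair.1 (Nat.pair x.2.1 x.2.2)) by fun_prop)
  | rfind cf ih =>
    refine Partrec.rfind (p := fun (q : ℕ × ℕ) n =>
      (cf.eval (fun _ => q.1) (Nat.pair q.2 n)).map fun m => decide (m = 0)) ?_
    refine Partrec.map (ih.comp (show Computable fun x : (ℕ × ℕ) × ℕ =>
      (x.1.1, Nat.pair x.1.2 x.2) by fun_prop)) ?_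
    exact RE.cdecide (RE.cp_eq (f := fun x : ((ℕ × ℕ) × ℕ) × ℕ => x.2) (g := fun _ => 0)
      Computable.snd (Computable.const 0))

theorem exists_name (x : ℝ) : ∃ p : ℕ → ℕ, ∀ n, |rat (p n) - x| < (1 / 2) ^ n := by
  have h : ∀ n : ℕ, ∃ k, |rat k - x| < (1 / 2) ^ n := fun n => by
    have hp : (0 : ℝ) < (1 / 2) ^ n := by positivity
    obtain ⟨k, h1, h2⟩ := exists_rat_btwn' (show x < x + (1 / 2) ^ n by linarith)
    exact ⟨k, by rw [abs_lt]; constructor <;> linarith⟩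
  exact ⟨fun n => (h n).choose, fun n => (h n).choose_spec⟩

theorem ComputableFn.continuous {f : ℝ → ℝ} (hf : ComputableFn f) : Continuous f := by
  obtain ⟨c, hc⟩ := hf
  rw [Metric.continuous_iff']
  intro x ε hε
  obtain ⟨p, hp⟩ := exists_name x
  obtain ⟨q, hq, hqc⟩ := hc x p fun n => (hp n).le
  obtain ⟨n, hn⟩ := exists_pow_lt_of_lt_one (half_pos hε) (show (1 / 2 : ℝ) < 1 by norm_num)
  obtain ⟨K, hK⟩ := use_principle p c n _ (hqc n)
  have h1 : ∀ᶠ y in 𝓝 x, ∀ i ∈ Finset.range K, |rat (p i) - y| < (1 / 2) ^ i := by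
    rw [eventually_all_finset]
    intro i _
    exact (isOpen_lt (by fun_prop) continuous_const).mem_nhds (hp i)
  filter_upwards [h1] with y hy
  obtain ⟨p', hp'⟩ := exists_name y
  obtain ⟨q', hq', hqc'⟩ := hc y (fun i => if i < K then p i else p' i) fun i => by
    by_cases hi : i < K
    · simp only [hi, if_true]; exact (hy i (Finset.mem_range.2 hi)).le
    · simp only [hi, if_false]; exact (hp' i).le
  have h2 : q' n = q n := Part.mem_unique (hqc' n) (hK _ fun i hi => by simp [hi])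
  have h3 := hq n
  have h4 := hq' n
  rw [h2] at h4
  rw [Real.dist_eq, abs_lt]
  rw [abs_le] at h3 h4
  constructor <;> linarith [h3.1, h3.2, h4.1, h4.2]

theorem ComputableFn.dr_rat {f : ℝ → ℝ} (hf : ComputableFn f) :
    DR fun (z : ℕ) _ => f (rat z) := by
  obtain ⟨c, hc⟩ := hf
  have h1 : REPred fun q : ((ℕ × ℕ) × ℕ) × ℕ => q.2 ∈ c.eval (fun _ => q.1.1.1) q.1.2 := by
    have h2 : Partrec fun q : ((ℕ × ℕ) × ℕ) × ℕ => (c.eval (fun _ => q.1.1.1) q.1.2).bind
        fun v => Part.assert (v = q.2) fun _ => Part.some () := by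
      refine ((partrec_const c).comp (show Computable fun q : ((ℕ × ℕ) × ℕ) × ℕ =>
        (q.1.1.1, q.1.2) by fun_prop)).bind ?_
      exact RE.eq (f := fun x : (((ℕ × ℕ) × ℕ) × ℕ) × ℕ => x.2) (g := fun x => x.1.2)
        (by fun_prop) (by fun_prop)
    refine h2.dom_re.of_eq fun q => ?_
    rw [Part.dom_iff_mem]
    simp only [Part.mem_bind_iff, Part.mem_assert_iff, Part.mem_some_iff]
    exact ⟨fun ⟨_, v, hv, e, _⟩ => e ▸ hv, fun h => ⟨(), _, h, rfl, trivial⟩⟩
  have h2 : Del fun (q : ((ℕ × ℕ) × ℕ) × ℕ) (_ : ℝ) =>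
      q.2 ∈ c.eval (fun _ => q.1.1.1) q.1.2 ∧ rat q.1.1.2 + (1 / 2) ^ q.1.2 < rat q.2 :=
    (Del.of_re h1).and (((CQ.rat (by fun_prop)).add (CQ.half (by fun_prop))).lt
      (CQ.rat (by fun_prop)))
  have h3 := Del.ex (R := fun (q : (ℕ × ℕ) × ℕ) v (_ : ℝ) =>
    v ∈ c.eval (fun _ => q.1.1) q.2 ∧ rat q.1.2 + (1 / 2) ^ q.2 < rat v) h2
  refine (Del.ex (R := fun (q : ℕ × ℕ) n (_ : ℝ) => ∃ v,
    v ∈ c.eval (fun _ => q.1) n ∧ rat q.2 + (1 / 2) ^ n < rat v) h3).of_iff fun a x => ?_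
  obtain ⟨q, hq, hqc⟩ := hc (rat a.1) (fun _ => a.1) fun n => by simp
  constructor
  · intro h
    obtain ⟨n, hn⟩ := exists_pow_lt_of_lt_one (half_pos (sub_pos.2 h))
      (show (1 / 2 : ℝ) < 1 by norm_num)
    have h4 := abs_le.1 (hq n)
    exact ⟨n, q n, hqc n, by linarith [h4.1]⟩
  · rintro ⟨n, v, hv, h⟩
    have h4 := abs_le.1 (hq n)
    rw [Part.mem_unique hv (hqc n)] at h
    show rat a.2 < f (rat a.1)
    linarith [h4.2]

theorem ComputableFn.dr_cq {f : ℝ → ℝ} (hf : ComputableFn f) {g : α → ℝ} (hg : CQ g) :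
    DR fun a _ => f (g a) := by
  obtain ⟨h, hh, e⟩ := hg
  have : g = fun a => rat (h a) := funext e
  subst this
  exact hf.dr_rat.comp hh

theorem closed_of_rat {C : Set ℝ} (hC : IsClosed C) {u v : ℝ}
    (h : ∀ z : ℕ, u < rat z → rat z < v → rat z ∈ C) : Ioo u v ⊆ C := by
  intro x hx
  by_contra hc
  obtain ⟨ε, hε, h1⟩ := Metric.isOpen_iff.1 hC.isOpen_compl x hc
  obtain ⟨z, h2, h3⟩ := exists_rat_btwn' (show x < min (x + ε) v from lt_min (by linarith) hx.2)
  refine h1 (show rat z ∈ Metric.ball x ε from ?_) (h z (hx.1.trans h2)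
    (h3.trans_le (min_le_right _ _)))
  rw [Metric.mem_ball, Real.dist_eq, abs_lt]
  constructor <;> linarith [min_le_left (x + ε) v]

theorem ComputableFn.dr {f : ℝ → ℝ} (hf : ComputableFn f) : DR fun (_ : α) x => f x := by
  have hcont := hf.continuous
  have h1 : Del fun (q : ((((α × ℕ) × ℕ) × ℕ) × ℕ) × ℕ) (_ : ℝ) =>
      rat q.1.1.1.2 < rat q.2 → rat q.2 < rat q.1.1.2 → rat q.1.2 ≤ f (rat q.2) :=
    ((CQ.rat (by fun_prop)).lt (CQ.rat (by fun_prop))).imp
      (((CQ.rat (by fun_prop)).lt (CQ.rat (by fun_prop))).imp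
        ((DR.cq (CQ.rat (by fun_prop))).le (hf.dr_cq (CQ.rat (by fun_prop)))))
  have h2 := Del.all (R := fun (q : (((α × ℕ) × ℕ) × ℕ) × ℕ) z (_ : ℝ) =>
      rat q.1.1.2 < rat z → rat z < rat q.1.2 → rat q.2 ≤ f (rat z)) h1
  have h3 : Del fun (q : (((α × ℕ) × ℕ) × ℕ) × ℕ) (x : ℝ) =>
      rat q.1.1.2 < x ∧ x < rat q.1.2 ∧ rat q.1.1.1.2 < rat q.2 ∧
        ∀ z, rat q.1.1.2 < rat z → rat z < rat q.1.2 → rat q.2 ≤ f (rat z) :=
    ((DR.cq (CQ.rat (by fun_prop))).lt DR.id).and ((DR.id.lt (DR.cq (CQ.rat (by fun_prop)))).and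
      (((CQ.rat (by fun_prop)).lt (CQ.rat (by fun_prop))).and h2))
  have h4 := Del.ex (R := fun (q : ((α × ℕ) × ℕ) × ℕ) t (x : ℝ) =>
      rat q.1.2 < x ∧ x < rat q.2 ∧ rat q.1.1.2 < rat t ∧
        ∀ z, rat q.1.2 < rat z → rat z < rat q.2 → rat t ≤ f (rat z)) h3
  have h5 := Del.ex (R := fun (q : (α × ℕ) × ℕ) v (x : ℝ) => ∃ t,
      rat q.2 < x ∧ x < rat v ∧ rat q.1.2 < rat t ∧
        ∀ z, rat q.2 < rat z → rat z < rat v → rat t ≤ f (rat z)) h4
  refine (Del.ex (R := fun (q : α × ℕ) u (x : ℝ) => ∃ v t,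
      rat u < x ∧ x < rat v ∧ rat q.2 < rat t ∧
        ∀ z, rat u < rat z → rat z < rat v → rat t ≤ f (rat z)) h5).of_iff fun a x => ?_
  constructor
  · intro h
    obtain ⟨t, h6, h7⟩ := exists_rat_btwn' h
    obtain ⟨ε, hε, h8⟩ := Metric.isOpen_iff.1 (isOpen_lt (continuous_const (y := rat t)) hcont)
      x h7
    obtain ⟨u, h9, h10⟩ := exists_rat_btwn' (show x - ε < x by linarith)
    obtain ⟨v, h11, h12⟩ := exists_rat_btwn' (show x < x + ε by linarith)
    refine ⟨u, v, t, h10, h11, h6, fun z hz hz' => le_of_lt (h8 ?_)⟩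
    rw [Metric.mem_ball, Real.dist_eq, abs_lt]
    constructor <;> linarith
  · rintro ⟨u, v, t, h6, h7, h8, h9⟩
    exact h8.trans_le (closed_of_rat (isClosed_le (continuous_const (y := rat t)) hcont) h9
      ⟨h6, h7⟩)

theorem countable_re : {W : α → Prop | REPred W}.Countable := by
  refine (countable_range fun (c : Nat.Partrec.Code) (a : α) =>
    (c.eval (encode a)).Dom).mono fun W hW => ?_
  obtain ⟨c, hc⟩ := Nat.Partrec.Code.exists_code.1 hW
  refine ⟨c, funext fun a => propext ?_⟩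
  have h1 : c.eval (encode a) = (Part.assert (W a) fun _ => Part.some ()).map encode := by
    rw [hc]; simp
  simp only [h1, Part.map_Dom]
  exact ⟨fun ⟨h, _⟩ => h, fun h => ⟨h, trivial⟩⟩

theorem countable_sigma : {A : Set ℝ | IsSigma11 A}.Countable := by
  refine ((countable_re (α := ℕ × ℕ × List ℕ)).image fun W => {x : ℝ | ∃ p : ℕ → ℕ,
    ∀ u v k : ℕ, rat u < x → x < rat v → ¬ W (u, v, (List.range k).map p)}).mono ?_
  rintro A ⟨W, hW, e⟩
  exact ⟨W, hW, (Set.ext e).symm⟩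

theorem ae_random : volume {y | ¬ Delta11Random y} = 0 := by
  have h1 : {A : Set ℝ | IsDelta11 A ∧ volume A = 0}.Countable :=
    countable_sigma.mono fun A hA => hA.1.1
  refine measure_mono_null (t := ⋃₀ {A : Set ℝ | IsDelta11 A ∧ volume A = 0}) (fun y hy => ?_)
    ((measure_sUnion_null_iff h1).2 fun A hA => hA.2)
  simp only [Delta11Random, mem_ofPred_eq, not_forall, not_not] at hy
  obtain ⟨A, h2, h3, h4⟩ := hy
  exact ⟨A, ⟨h2, h3⟩, h4⟩

end Pool.Agent.H854Z.LN
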