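import Mathlib

/-!
Computable real functions, lightface analytic sets of reals, randomness reflection and
Luzin's property (N).
-/

namespace Pool.Agent.H854Z.LN

open MeasureTheory

/-- The standard numbering of the rationals: the code of the triple `(a, b, c)` denotes
`(a - b) / (c + 1)`. -/
noncomputable def rat (n : ℕ) : ℝ :=
  ((n.unpair.1 : ℝ) - (n.unpair.2.unpair.1 : ℝ)) / ((n.unpair.2.unpair.2 : ℝ) + 1)

/-- `p` is a fast-converging sequence of (codes of) rationals naming `x`. -/
def IsName (p : ℕ → ℕ) (x : ℝ) : Prop := ∀ n, |rat (p n) - x| ≤ (1 / 2) ^ n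

/-- Programs of oracle machines: codes of partial recursive functions with one oracle. -/
inductive OCode : Type
  | zero : OCode
  | succ : OCode
  | left : OCode
  | right : OCode
  | oracle : OCode
  | pair : OCode → OCode → OCode
  | comp : OCode → OCode → OCode
  | prec : OCode → OCode → OCode
  | rfind : OCode → OCode

/-- The function computed by a program with the oracle `p` (the clauses are those of
`Nat.RecursiveIn`). -/
def OCode.eval (p : ℕ → ℕ) : OCode → ℕ →. ℕ
  | .zero => fun _ => Part.some 0
  | .succ => fun n => Part.some (n + 1)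
  | .left => fun n => Part.some n.unpair.1
  | .right => fun n => Part.some n.unpair.2
  | .oracle => fun n => Part.some (p n)
  | .pair cf cg => fun n => Nat.pair <$> cf.eval p n <*> cg.eval p n
  | .comp cf cg => fun n => cg.eval p n >>= cf.eval p
  | .prec cf cg => fun m =>
      Nat.rec (cf.eval p m.unpair.1)
        (fun y IH => IH.bind fun i => cg.eval p (Nat.pair m.unpair.1 (Nat.pair y i))) m.unpair.2
  | .rfind cf => fun a => Nat.rfind fun n => (fun m => decide (m = 0)) <$> cf.eval p (Nat.pair a n)

/-- `f` is computable: one oracle machine turns every name of `x` into a name of `f x`. -/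
def ComputableFn (f : ℝ → ℝ) : Prop :=
  ∃ c : OCode, ∀ (x : ℝ) (p : ℕ → ℕ), IsName p x →
    ∃ q : ℕ → ℕ, IsName q (f x) ∧ ∀ n, q n ∈ c.eval p n

/-- `A` is a lightface `Σ¹₁` set of reals: the projection to `ℝ` of an effectively closed subset
of `ℝ × ℕ^ℕ`, that is, of the complement of the union of the basic open boxes
`(rat u, rat v) × [s]` over the triples `(u, v, s)` in a computably enumerable set `W`. -/
def IsSigma11 (A : Set ℝ) : Prop :=
  ∃ W : ℕ × ℕ × List ℕ → Prop, REPred W ∧
    ∀ x : ℝ, x ∈ A ↔ ∃ p : ℕ → ℕ, ∀ u v k : ℕ,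
      rat u < x → x < rat v → ¬ W (u, v, (List.range k).map p)

/-- `A` is a lightface `Δ¹₁` set of reals. -/
def IsDelta11 (A : Set ℝ) : Prop := IsSigma11 A ∧ IsSigma11 Aᶜ

/-- `x` lies in no Lebesgue null `Δ¹₁` set. -/
def Delta11Random (x : ℝ) : Prop := ∀ A : Set ℝ, IsDelta11 A → volume A = 0 → x ∉ A

/-- `f` reflects `Δ¹₁`-randomness. -/
def ReflectsRandomness (f : ℝ → ℝ) : Prop := ∀ x, Delta11Random (f x) → Delta11Random x

/-- Luzin's property (N). -/
def LuzinN (f : ℝ → ℝ) : Prop := ∀ N : Set ℝ, volume N = 0 → volume (f '' N) = 0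

end Pool.Agent.H854Z.LN
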