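import Pool.Agent.H854Z.LN.Defs
import Pool.Agent.Helper446.Comp

namespace Pool.Agent.H854Z.LN

open Pool.Agent.Helper446 MeasureTheory ENNReal Encodable

variable {α β : Type} [Primcodable α] [Primcodable β]

def Sig (R : α → ℝ → Prop) : Prop :=
  ∃ W : α × ℕ × ℕ × List ℕ → Prop, REPred W ∧
    ∀ a x, R a x ↔ ∃ p : ℕ → ℕ, ∀ u v k : ℕ,
      rat u < x → x < rat v → ¬ W (a, u, v, (List.range k).map p)

def Del (R : α → ℝ → Prop) : Prop := Sig R ∧ Sig fun a x => ¬ R a x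

theorem exists_rat_eq (q : ℚ) : ∃ n, rat n = (q : ℝ) := by
  refine ⟨Nat.pair q.num.toNat (Nat.pair (-q.num).toNat (q.den - 1)), ?_⟩
  unfold rat
  simp only [Nat.unpair_pair]
  have h1 : ((q.den - 1 : ℕ) : ℝ) + 1 = (q.den : ℝ) := by
    have := q.den_pos
    rw [Nat.cast_sub this]; simp
  have h2 : ((q.num.toNat : ℕ) : ℝ) - (((-q.num).toNat : ℕ) : ℝ) = (q.num : ℝ) := by
    have := Int.toNat_sub_toNat_neg q.num
    exact_mod_cast this
  rw [h1, h2, Rat.cast_def]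

theorem rat_isRat (n : ℕ) : ∃ q : ℚ, rat n = (q : ℝ) :=
  ⟨((n.unpair.1 : ℚ) - (n.unpair.2.unpair.1 : ℚ)) / ((n.unpair.2.unpair.2 : ℚ) + 1), by
    unfold rat; push_cast; rfl⟩

theorem exists_rat_btwn' {x y : ℝ} (h : x < y) : ∃ n, x < rat n ∧ rat n < y := by
  obtain ⟨q, h1, h2⟩ := exists_rat_btwn h
  obtain ⟨n, hn⟩ := exists_rat_eq q
  exact ⟨n, hn ▸ h1, hn ▸ h2⟩

theorem Sig.of_iff {R S : α → ℝ → Prop} (h : Sig R) (e : ∀ a x, S a x ↔ R a x) : Sig S := by
  have : S = R := funext fun a => funext fun x => propext (e a x)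
  rw [this]; exact h

theorem Sig.comp {R : β → ℝ → Prop} (h : Sig R) {g : α → β} (hg : Computable g) :
    Sig fun a x => R (g a) x := by
  obtain ⟨W, hW, e⟩ := h
  exact ⟨fun p => W (g p.1, p.2), RE.comp hW (by fun_prop), fun a x => e (g a) x⟩

theorem Sig.of_not_re {P : α → Prop} (h : REPred P) : Sig fun a _ => ¬ P a := by
  refine ⟨fun p => P p.1, RE.comp h (by fun_prop), fun a x => ⟨fun h => ⟨fun _ => 0,
    fun _ _ _ _ _ => h⟩, fun ⟨p, h⟩ => ?_⟩⟩
  obtain ⟨u, -, hu⟩ := exists_rat_btwn' (show x - 1 < x by linarith)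
  obtain ⟨v, hv, -⟩ := exists_rat_btwn' (show x < x + 1 by linarith)
  exact h u v 0 hu hv

theorem Sig.all {R : α × ℕ → ℝ → Prop} (h : Sig R) : Sig fun a x => ∀ n, R (a, n) x := by
  obtain ⟨W, hW, e⟩ := h
  refine ⟨fun q => ∃ n : ℕ, ∃ t : List ℕ, (∀ j < t.length, q.2.2.2[Nat.pair n j]? = t[j]?) ∧
    W ((q.1, n), q.2.1, q.2.2.1, t), ?_, fun a x => ?_⟩
  · refine RE.exN (p := fun (q : α × ℕ × ℕ × List ℕ) n => ∃ t : List ℕ,
      (∀ j < t.length, q.2.2.2[Nat.pair n j]? = t[j]?) ∧ W ((q.1, n), q.2.1, q.2.2.1, t)) ?_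
    refine RE.ex (p := fun (q : (α × ℕ × ℕ × List ℕ) × ℕ) (t : List ℕ) =>
      (∀ j < t.length, q.1.2.2.2[Nat.pair q.2 j]? = t[j]?) ∧
        W ((q.1.1, q.2), q.1.2.1, q.1.2.2.1, t)) ?_
    refine RE.and ?_ (RE.comp hW (by fun_prop))
    refine RE.all_lt (p := fun (q : ((α × ℕ × ℕ × List ℕ) × ℕ) × List ℕ) j =>
      q.1.1.2.2.2[Nat.pair q.1.2 j]? = q.2[j]?) ?_ (by fun_prop)
    exact RE.eq (by fun_prop) (by fun_prop)
  · constructor
    · intro h1
      have h2 := fun n => (e (a, n) x).1 (h1 n)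
      choose p hp using h2
      refine ⟨fun m => p m.unpair.1 m.unpair.2, fun u v k hu hv => ?_⟩
      rintro ⟨n, t, ht, hw⟩
      refine hp n u v t.length hu hv ?_
      have : t = (List.range t.length).map (p n) := by
        refine List.ext_getElem (by simp) fun j h1 h2 => ?_
        have h3 := ht j h1
        simp only [List.getElem?_eq_getElem h1] at h3
        obtain ⟨h4, h5⟩ := List.getElem?_eq_some_iff.1 h3
        simp at h5
        simp [← h5]
      rw [← this]; exact hw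
    · rintro ⟨p, hp⟩ n
      refine (e (a, n) x).2 ⟨fun j => p (Nat.pair n j), fun u v k hu hv hw => ?_⟩
      refine hp u v (Nat.pair n k) hu hv ⟨n, _, fun j hj => ?_, hw⟩
      have hj' : j < k := by simpa using hj
      have := Nat.pair_lt_pair_right n hj'
      simp [hj', this]

theorem Sig.ex {R : α × ℕ → ℝ → Prop} (h : Sig R) : Sig fun a x => ∃ n, R (a, n) x := by
  obtain ⟨W, hW, e⟩ := h
  refine ⟨fun q => ∃ n : ℕ, ∃ t : List ℕ, q.2.2.2 = n :: t ∧
    W ((q.1, n), q.2.1, q.2.2.1, t), ?_, fun a x => ?_⟩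
  · refine RE.exN (p := fun (q : α × ℕ × ℕ × List ℕ) n => ∃ t : List ℕ,
      q.2.2.2 = n :: t ∧ W ((q.1, n), q.2.1, q.2.2.1, t)) ?_
    refine RE.ex (p := fun (q : (α × ℕ × ℕ × List ℕ) × ℕ) (t : List ℕ) =>
      q.1.2.2.2 = q.2 :: t ∧ W ((q.1.1, q.2), q.1.2.1, q.1.2.2.1, t)) ?_
    exact RE.and (RE.eq (by fun_prop) (by fun_prop)) (RE.comp hW (by fun_prop))
  · constructor
    · rintro ⟨n, hn⟩
      obtain ⟨p, hp⟩ := (e (a, n) x).1 hn
      refine ⟨fun m => Nat.casesOn m n p, fun u v k hu hv => ?_⟩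
      rintro ⟨m, t, ht, hw⟩
      cases k with
      | zero => simp at ht
      | succ k =>
        simp only [List.range_succ_eq_map, List.map_cons, List.map_map, List.cons.injEq] at ht
        obtain ⟨h1, h2⟩ := ht
        have h3 : m = n := h1.symm
        subst h3
        subst h2
        exact hp u v k hu hv hw
    · rintro ⟨p, hp⟩
      refine ⟨p 0, (e (a, p 0) x).2 ⟨fun j => p (j + 1), fun u v k hu hv hw => ?_⟩⟩
      refine hp u v (k + 1) hu hv ⟨p 0, _, ?_, hw⟩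
      simp only [List.range_succ_eq_map, List.map_cons, List.map_map]
      rfl

theorem Sig.cases {R S : α → ℝ → Prop} (h : Sig R) (h' : Sig S) :
    Sig fun (a : α × ℕ) x => if a.2 = 0 then R a.1 x else S a.1 x := by
  obtain ⟨W, hW, e⟩ := h
  obtain ⟨W', hW', e'⟩ := h'
  refine ⟨fun q => (q.1.2 = 0 ∧ W (q.1.1, q.2)) ∨ (q.1.2 ≠ 0 ∧ W' (q.1.1, q.2)), ?_,
    fun a x => ?_⟩
  · exact RE.or (RE.and (RE.eq (by fun_prop) (by fun_prop)) (RE.comp hW (by fun_prop)))
      (RE.and (RE.ne (by fun_prop) (by fun_prop)) (RE.comp hW' (by fun_prop)))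
  · by_cases h0 : a.2 = 0
    · simp only [h0, if_true, e, true_and, ne_eq, not_true, false_and, or_false]
    · simp only [h0, if_false, e', false_and, ne_eq, not_false_iff, true_and, false_or]

theorem Sig.and {R S : α → ℝ → Prop} (h : Sig R) (h' : Sig S) :
    Sig fun a x => R a x ∧ S a x := by
  refine (h.cases h').all.of_iff fun a x => ⟨fun h1 n => ?_, fun h1 => ⟨?_, ?_⟩⟩
  · by_cases h0 : n = 0 <;> simp [h0, h1.1, h1.2]
  · simpa using h1 0
  · simpa using h1 1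

theorem Sig.or {R S : α → ℝ → Prop} (h : Sig R) (h' : Sig S) :
    Sig fun a x => R a x ∨ S a x := by
  refine (h.cases h').ex.of_iff fun a x => ⟨fun h1 => ?_, fun ⟨n, h1⟩ => ?_⟩
  · rcases h1 with h1 | h1
    · exact ⟨0, by simpa using h1⟩
    · exact ⟨1, by simpa using h1⟩
  · by_cases h0 : n = 0
    · left; simpa [h0] using h1
    · right; simpa [h0] using h1

theorem Del.of_iff {R S : α → ℝ → Prop} (h : Del R) (e : ∀ a x, S a x ↔ R a x) : Del S := by
  have : S = R := funext fun a => funext fun x => propext (e a x)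
  rw [this]; exact h

theorem Del.comp {R : β → ℝ → Prop} (h : Del R) {g : α → β} (hg : Computable g) :
    Del fun a x => R (g a) x := ⟨h.1.comp hg, h.2.comp hg⟩

theorem Del.not {R : α → ℝ → Prop} (h : Del R) : Del fun a x => ¬ R a x :=
  ⟨h.2, h.1.of_iff fun _ _ => not_not⟩

theorem Del.and {R S : α → ℝ → Prop} (h : Del R) (h' : Del S) :
    Del fun a x => R a x ∧ S a x :=
  ⟨h.1.and h'.1, (h.2.or h'.2).of_iff fun _ _ => not_and_or⟩

theorem Del.or {R S : α → ℝ → Prop} (h : Del R) (h' : Del S) :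
    Del fun a x => R a x ∨ S a x :=
  ⟨h.1.or h'.1, (h.2.and h'.2).of_iff fun _ _ => not_or⟩

theorem Del.imp {R S : α → ℝ → Prop} (h : Del R) (h' : Del S) :
    Del fun a x => R a x → S a x :=
  (h.not.or h').of_iff fun _ _ => imp_iff_not_or

theorem Del.all {R : α → ℕ → ℝ → Prop} (h : Del fun (p : α × ℕ) x => R p.1 p.2 x) :
    Del fun a x => ∀ n, R a n x :=
  ⟨h.1.all, h.2.ex.of_iff fun _ _ => not_forall⟩

theorem Del.ex {R : α → ℕ → ℝ → Prop} (h : Del fun (p : α × ℕ) x => R p.1 p.2 x) :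
    Del fun a x => ∃ n, R a n x :=
  ⟨h.1.ex, h.2.all.of_iff fun _ _ => not_exists⟩

theorem Del.exL {R : α → List ℕ → ℝ → Prop}
    (h : Del fun (p : α × List ℕ) x => R p.1 p.2 x) : Del fun a x => ∃ l, R a l x := by
  have hd : Computable fun p : α × ℕ => (p.1, (decode (α := List ℕ) p.2).getD []) :=
    Computable.fst.pair (Primrec.option_getD.to_comp.comp (RE.cdecode Computable.snd)
      (Computable.const _))
  refine (Del.ex (R := fun a n x => R a ((decode (α := List ℕ) n).getD []) x)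
    (h.comp hd)).of_iff fun a x => ⟨fun ⟨l, hl⟩ => ⟨encode l, by simpa using hl⟩,
      fun ⟨n, hn⟩ => ⟨_, hn⟩⟩

theorem Del.of_computable {P : α → Prop} (h : ComputablePred P) : Del fun a _ => P a :=
  ⟨(Sig.of_not_re h.not.to_re).of_iff fun _ _ => not_not.symm, Sig.of_not_re h.to_re⟩

theorem Del.of_re {P : α → Prop} (h : REPred P) : Del fun a _ => P a := by
  obtain ⟨q, hq, e⟩ := RE.re_iff.1 h
  have h1 : ComputablePred fun p : α × ℕ => q p.1 p.2 = true :=
    RE.cp_eq (f := fun p : α × ℕ => q p.1 p.2) hq (Computable.const true)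
  exact (Del.ex (R := fun a n _ => q a n = true) (Del.of_computable h1)).of_iff fun a _ => e a

/-! ### computable rational valued functions -/

def CQ (g : α → ℝ) : Prop := ∃ h : α → ℕ, Computable h ∧ ∀ a, g a = rat (h a)

theorem CQ.rat {h : α → ℕ} (hh : Computable h) : CQ fun a => rat (h a) := ⟨h, hh, fun _ => rfl⟩

theorem CQ.comp {g : β → ℝ} (h : CQ g) {k : α → β} (hk : Computable k) :
    CQ fun a => g (k a) := by
  obtain ⟨h, hh, e⟩ := h
  exact ⟨fun a => h (k a), hh.comp hk, fun a => e _⟩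

theorem CQ.of_eq {g g' : α → ℝ} (h : CQ g) (e : ∀ a, g' a = g a) : CQ g' := by
  have : g' = g := funext e
  rw [this]; exact h

theorem CQ.mk' {a b c : α → ℕ} (ha : Computable a) (hb : Computable b) (hc : Computable c) :
    CQ fun x => ((a x : ℝ) - b x) / ((c x : ℝ) + 1) :=
  ⟨fun x => Nat.pair (a x) (Nat.pair (b x) (c x)), by fun_prop, fun x => by
    unfold LN.rat; simp only [Nat.unpair_pair]⟩

theorem CQ.nat {h : α → ℕ} (hh : Computable h) : CQ fun a => (h a : ℝ) :=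
  (CQ.mk' hh (Computable.const 0) (Computable.const 0)).of_eq fun a => by simp

theorem CQ.inv {h : α → ℕ} (hh : Computable h) : CQ fun a => 1 / ((h a : ℝ) + 1) :=
  (CQ.mk' (Computable.const 1) (Computable.const 0) hh).of_eq fun a => by simp

theorem CQ.zero : CQ fun _ : α => (0 : ℝ) :=
  (CQ.nat (Computable.const 0)).of_eq fun a => by simp

theorem c_pow2 {h : α → ℕ} (hh : Computable h) : Computable fun a => 2 ^ h a :=
  (Primrec₂.unpaired'.1 Nat.Primrec.pow).to_comp.comp (Computable.const 2) hh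

theorem CQ.half {h : α → ℕ} (hh : Computable h) : CQ fun a => (1 / 2 : ℝ) ^ h a :=
  (CQ.inv (h := fun a => 2 ^ h a - 1) (RE.csub (c_pow2 hh) (Computable.const 1))).of_eq
    fun a => by
      have : 1 ≤ 2 ^ h a := Nat.one_le_two_pow
      rw [Nat.cast_sub this]; simp

theorem CQ.add {g g' : α → ℝ} (h : CQ g) (h' : CQ g') : CQ fun a => g a + g' a := by
  obtain ⟨h, hh, e⟩ := h
  obtain ⟨k, hk, e'⟩ := h'
  refine (CQ.mk' (a := fun x => (h x).unpair.1 * ((k x).unpair.2.unpair.2 + 1) +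
      (k x).unpair.1 * ((h x).unpair.2.unpair.2 + 1))
    (b := fun x => (h x).unpair.2.unpair.1 * ((k x).unpair.2.unpair.2 + 1) +
      (k x).unpair.2.unpair.1 * ((h x).unpair.2.unpair.2 + 1))
    (c := fun x => (h x).unpair.2.unpair.2 * (k x).unpair.2.unpair.2 +
      (h x).unpair.2.unpair.2 + (k x).unpair.2.unpair.2)
    (by fun_prop) (by fun_prop) (by fun_prop)).of_eq fun a => ?_
  rw [e, e']; unfold LN.rat; push_cast
  field_simp
  ring

theorem CQ.mul {g g' : α → ℝ} (h : CQ g) (h' : CQ g') : CQ fun a => g a * g' a := by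
  obtain ⟨h, hh, e⟩ := h
  obtain ⟨k, hk, e'⟩ := h'
  refine (CQ.mk' (a := fun x => (h x).unpair.1 * (k x).unpair.1 +
      (h x).unpair.2.unpair.1 * (k x).unpair.2.unpair.1)
    (b := fun x => (h x).unpair.1 * (k x).unpair.2.unpair.1 +
      (h x).unpair.2.unpair.1 * (k x).unpair.1)
    (c := fun x => (h x).unpair.2.unpair.2 * (k x).unpair.2.unpair.2 +
      (h x).unpair.2.unpair.2 + (k x).unpair.2.unpair.2)
    (by fun_prop) (by fun_prop) (by fun_prop)).of_eq fun a => ?_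
  rw [e, e']; unfold LN.rat; push_cast
  field_simp
  ring

theorem CQ.neg {g : α → ℝ} (h : CQ g) : CQ fun a => - g a := by
  obtain ⟨h, hh, e⟩ := h
  refine (CQ.mk' (a := fun x => (h x).unpair.2.unpair.1) (b := fun x => (h x).unpair.1)
    (c := fun x => (h x).unpair.2.unpair.2)
    (by fun_prop) (by fun_prop) (by fun_prop)).of_eq fun a => ?_
  rw [e]; unfold LN.rat
  ring

theorem CQ.sub {g g' : α → ℝ} (h : CQ g) (h' : CQ g') : CQ fun a => g a - g' a :=
  (h.add h'.neg).of_eq fun _ => sub_eq_add_neg _ _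

theorem CQ.pos {g : α → ℝ} (h : CQ g) : ComputablePred fun a => 0 < g a := by
  obtain ⟨h, hh, e⟩ := h
  refine (RE.cp_lt (f := fun a => (h a).unpair.2.unpair.1) (g := fun a => (h a).unpair.1)
    (by fun_prop) (by fun_prop)).of_eq fun a => ?_
  rw [e]; unfold LN.rat
  rw [div_pos_iff_of_pos_right (by positivity), sub_pos, Nat.cast_lt]

theorem CQ.lt {g g' : α → ℝ} (h : CQ g) (h' : CQ g') : Del fun a (_ : ℝ) => g a < g' a :=
  (Del.of_computable (h'.sub h).pos).of_iff fun _ _ => sub_pos.symm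

theorem CQ.le {g g' : α → ℝ} (h : CQ g) (h' : CQ g') : Del fun a (_ : ℝ) => g a ≤ g' a :=
  (h'.lt h).not.of_iff fun _ _ => not_lt.symm

theorem sig_le_rat : Sig fun (n : ℕ) x => x ≤ rat n := by
  refine ⟨fun q => q.2.1 = q.1, RE.eq (by fun_prop) (by fun_prop), fun a x =>
    ⟨fun h => ⟨fun _ => 0, fun u v k hu hv e => ?_⟩, fun ⟨p, h⟩ => ?_⟩⟩
  · simp only at e; subst e; linarith
  · by_contra hc
    obtain ⟨v, hv, -⟩ := exists_rat_btwn' (show x < x + 1 by linarith)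
    exact h a v 0 (not_le.1 hc) hv rfl

theorem sig_rat_le : Sig fun (n : ℕ) x => rat n ≤ x := by
  refine ⟨fun q => q.2.2.1 = q.1, RE.eq (by fun_prop) (by fun_prop), fun a x =>
    ⟨fun h => ⟨fun _ => 0, fun u v k hu hv e => ?_⟩, fun ⟨p, h⟩ => ?_⟩⟩
  · simp only at e; subst e; linarith
  · by_contra hc
    obtain ⟨u, -, hu⟩ := exists_rat_btwn' (show x - 1 < x by linarith)
    exact h u a 0 hu (not_le.1 hc) rfl

theorem del_rat_lt : Del fun (n : ℕ) x => rat n < x := by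
  refine ⟨?_, sig_le_rat.of_iff fun _ _ => not_lt⟩
  have h1 : Sig fun (p : ℕ × ℕ) x => rat p.1 < rat p.2 ∧ rat p.2 ≤ x :=
    ((CQ.rat Computable.fst).lt (CQ.rat Computable.snd)).1.and (sig_rat_le.comp Computable.snd)
  refine h1.ex.of_iff fun a x => ⟨fun h => ?_, fun ⟨n, h2, h3⟩ => h2.trans_le h3⟩
  obtain ⟨n, h2, h3⟩ := exists_rat_btwn' h
  exact ⟨n, h2, h3.le⟩

/-! ### definable real valued functions -/

def DR (G : α → ℝ → ℝ) : Prop := Del fun (p : α × ℕ) x => rat p.2 < G p.1 x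

theorem DR.id : DR fun (_ : α) x => x := del_rat_lt.comp Computable.snd

theorem DR.cq {g : α → ℝ} (h : CQ g) : DR fun a _ => g a :=
  (CQ.rat Computable.snd).lt (h.comp Computable.fst)

theorem DR.comp {G : β → ℝ → ℝ} (h : DR G) {k : α → β} (hk : Computable k) :
    DR fun a x => G (k a) x :=
  Del.comp (g := fun p : α × ℕ => (k p.1, p.2)) h (by fun_prop)

theorem DR.lt {G G' : α → ℝ → ℝ} (h : DR G) (h' : DR G') : Del fun a x => G a x < G' a x := by
  refine (Del.ex (R := fun a n x => ¬ rat n < G a x ∧ rat n < G' a x)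
    (Del.and (Del.not h) h')).of_iff fun a x => ⟨fun h1 => ?_, fun ⟨n, h2, h3⟩ => ?_⟩
  · obtain ⟨n, h2, h3⟩ := exists_rat_btwn' h1
    exact ⟨n, not_lt.2 h2.le, h3⟩
  · exact (not_lt.1 h2).trans_lt h3

theorem DR.le {G G' : α → ℝ → ℝ} (h : DR G) (h' : DR G') : Del fun a x => G a x ≤ G' a x :=
  (h'.lt h).not.of_iff fun _ _ => not_lt.symm

theorem DR.add_cq {G : α → ℝ → ℝ} (h : DR G) {g : α → ℝ} (h' : CQ g) :
    DR fun a x => G a x + g a := by
  have h1 : Del fun (p : α × ℕ) x => rat p.2 - g p.1 < G p.1 x :=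
    (DR.cq ((CQ.rat Computable.snd).sub (h'.comp Computable.fst))).lt (h.comp Computable.fst)
  exact h1.of_iff fun _ _ => sub_lt_iff_lt_add.symm

/-! ### definable extended valued functions -/

def DE (G : α → ℝ → ℝ≥0∞) : Prop :=
  Del fun (p : α × ℕ) x => ENNReal.ofReal (rat p.2) < G p.1 x

theorem exists_ofReal_btwn {a b : ℝ≥0∞} (h : a < b) :
    ∃ n, a < ENNReal.ofReal (rat n) ∧ ENNReal.ofReal (rat n) < b := by
  obtain ⟨q, -, h1, h2⟩ := ENNReal.lt_iff_exists_rat_btwn.1 h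
  obtain ⟨n, hn⟩ := exists_rat_eq q
  exact ⟨n, hn ▸ h1, hn ▸ h2⟩

theorem DE.of_eq {G G' : α → ℝ → ℝ≥0∞} (h : DE G) (e : ∀ a x, G' a x = G a x) : DE G' := by
  have : G' = G := funext fun a => funext fun x => e a x
  rw [this]; exact h

theorem DE.comp {G : β → ℝ → ℝ≥0∞} (h : DE G) {k : α → β} (hk : Computable k) :
    DE fun a x => G (k a) x :=
  Del.comp (g := fun p : α × ℕ => (k p.1, p.2)) h (by fun_prop)

theorem DE.cq {g : α → ℝ} (h : CQ g) : DE fun a _ => ENNReal.ofReal (g a) := by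
  have h1 : Del fun (p : α × ℕ) (_ : ℝ) => rat p.2 < g p.1 ∧ 0 < g p.1 :=
    ((CQ.rat Computable.snd).lt (h.comp Computable.fst)).and
      (CQ.zero.lt (h.comp Computable.fst))
  exact h1.of_iff fun _ _ => ENNReal.ofReal_lt_ofReal_iff'

theorem DE.lt {G G' : α → ℝ → ℝ≥0∞} (h : DE G) (h' : DE G') :
    Del fun a x => G a x < G' a x := by
  refine (Del.ex (R := fun a n x => ¬ ENNReal.ofReal (rat n) < G a x ∧
    ENNReal.ofReal (rat n) < G' a x) (Del.and (Del.not h) h')).of_iff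
      fun a x => ⟨fun h1 => ?_, fun ⟨n, h2, h3⟩ => ?_⟩
  · obtain ⟨n, h2, h3⟩ := exists_ofReal_btwn h1
    exact ⟨n, not_lt.2 h2.le, h3⟩
  · exact (not_lt.1 h2).trans_lt h3

theorem DE.le {G G' : α → ℝ → ℝ≥0∞} (h : DE G) (h' : DE G') :
    Del fun a x => G a x ≤ G' a x :=
  (h'.lt h).not.of_iff fun _ _ => not_lt.symm

theorem DE.iSup {G : α → ℕ → ℝ → ℝ≥0∞} (h : DE fun (p : α × ℕ) x => G p.1 p.2 x) :
    DE fun a x => ⨆ n, G a n x := by
  have h1 : Del fun (q : (α × ℕ) × ℕ) x => ENNReal.ofReal (rat q.1.2) < G q.1.1 q.2 x :=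
    Del.comp (g := fun q : (α × ℕ) × ℕ => ((q.1.1, q.2), q.1.2)) h (by fun_prop)
  exact (Del.ex (R := fun (p : α × ℕ) n x => ENNReal.ofReal (rat p.2) < G p.1 n x) h1).of_iff
    fun _ _ => lt_iSup_iff

theorem DE.iInf {G : α → ℕ → ℝ → ℝ≥0∞} (h : DE fun (p : α × ℕ) x => G p.1 p.2 x) :
    DE fun a x => ⨅ n, G a n x := by
  have h1 : Del fun (q : ((α × ℕ) × ℕ) × ℕ) x =>
      ENNReal.ofReal (rat q.1.2) < G q.1.1.1 q.2 x :=
    Del.comp (g := fun q : ((α × ℕ) × ℕ) × ℕ => ((q.1.1.1, q.2), q.1.2)) h (by fun_prop)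
  have h2 := Del.all (R := fun (q : (α × ℕ) × ℕ) n x =>
    ENNReal.ofReal (rat q.2) < G q.1.1 n x) h1
  have h3 : Del fun (q : (α × ℕ) × ℕ) (_ : ℝ) =>
      ENNReal.ofReal (rat q.1.2) < ENNReal.ofReal (rat q.2) :=
    (DE.cq (CQ.rat (by fun_prop))).lt (DE.cq (CQ.rat (by fun_prop)))
  refine (Del.ex (R := fun (p : α × ℕ) m x => ENNReal.ofReal (rat p.2) < ENNReal.ofReal (rat m) ∧
    ∀ n, ENNReal.ofReal (rat m) < G p.1 n x) (h3.and h2)).of_iff fun a x =>
      ⟨fun h4 => ?_, fun ⟨m, h4, h5⟩ => h4.trans_le (le_iInf fun n => (h5 n).le)⟩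
  obtain ⟨m, h5, h6⟩ := exists_ofReal_btwn h4
  exact ⟨m, h5, fun n => h6.trans_le (iInf_le _ n)⟩

theorem DE.ite {G : α → ℝ → ℝ≥0∞} (h : DE G) {P : α → ℝ → Prop} [∀ a x, Decidable (P a x)]
    (hP : Del P) :
    DE fun a x => if P a x then G a x else 0 := by
  refine ((hP.comp Computable.fst).and h).of_iff fun a x => ?_
  by_cases h1 : P a.1 x <;> simp [h1]

theorem sum_approx (g : ℕ → ℝ≥0∞) (K : ℕ) (a : ℝ≥0∞) (h : a < ∑ j ∈ Finset.range K, g j) :
    ∃ r : ℕ → ℚ, (∀ j < K, r j = 0 ∨ ENNReal.ofReal (r j) < g j) ∧ (∀ j, 0 ≤ r j) ∧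
      a < ENNReal.ofReal (∑ j ∈ Finset.range K, (r j : ℝ)) := by
  induction K generalizing a with
  | zero => simp at h
  | succ K ih =>
    rw [Finset.sum_range_succ] at h
    have key : ∃ (s : ℝ≥0∞) (t : ℚ), (s = 0 ∨ s < ∑ j ∈ Finset.range K, g j) ∧ 0 ≤ t ∧
        (t = 0 ∨ ENNReal.ofReal t < g K) ∧ a < s + ENNReal.ofReal t := by
      by_cases h1 : ∑ j ∈ Finset.range K, g j = 0
      · rw [h1, zero_add] at h
        obtain ⟨q, h0, h2, h3⟩ := ENNReal.lt_iff_exists_rat_btwn.1 h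
        exact ⟨0, q, Or.inl rfl, h0, Or.inr h3, by rw [zero_add]; exact h2⟩
      by_cases h2 : g K = 0
      · rw [h2, add_zero] at h
        obtain ⟨s, h3, h4⟩ := exists_between h
        exact ⟨s, 0, Or.inr h4, le_rfl, Or.inl rfl, by simpa using h3⟩
      obtain ⟨s, h3, t, h4, h5⟩ := ENNReal.exists_lt_add_of_lt_add h h1 h2
      obtain ⟨q, h0, h6, h7⟩ := ENNReal.lt_iff_exists_rat_btwn.1 h4
      exact ⟨s, q, Or.inr h3, h0, Or.inr h7, h5.trans_le (add_le_add le_rfl h6.le)⟩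
    obtain ⟨s, t, hs, ht0, ht, hst⟩ := key
    have key2 : ∃ r : ℕ → ℚ, (∀ j < K, r j = 0 ∨ ENNReal.ofReal (r j) < g j) ∧
        (∀ j, 0 ≤ r j) ∧ s ≤ ENNReal.ofReal (∑ j ∈ Finset.range K, (r j : ℝ)) := by
      rcases hs with rfl | hs
      · exact ⟨fun _ => 0, fun _ _ => Or.inl rfl, fun _ => le_rfl, zero_le⟩
      · obtain ⟨r, h1, h2, h3⟩ := ih s hs
        exact ⟨r, h1, h2, h3.le⟩
    obtain ⟨r, h1, h2, h3⟩ := key2
    refine ⟨fun j => if j = K then t else r j, fun j hj => ?_, fun j => ?_, ?_⟩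
    · by_cases hjK : j = K
      · simpa [hjK] using ht
      · simpa [hjK] using h1 j (by omega)
    · by_cases hjK : j = K
      · simpa [hjK] using ht0
      · simpa [hjK] using h2 j
    · rw [Finset.sum_range_succ]
      have h4 : ∑ j ∈ Finset.range K, (((if j = K then t else r j : ℚ)) : ℝ) =
          ∑ j ∈ Finset.range K, (r j : ℝ) :=
        Finset.sum_congr rfl fun j hj => by
          have := Finset.mem_range.1 hj
          rw [if_neg (by omega)]
      rw [h4]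
      simp only [if_true]
      rw [ENNReal.ofReal_add (Finset.sum_nonneg fun j _ => by exact_mod_cast h2 j)
        (by exact_mod_cast ht0)]
      exact hst.trans_le (add_le_add h3 le_rfl)

theorem ofReal_sum_le' (r : ℕ → ℝ) (K : ℕ) : ENNReal.ofReal (∑ j ∈ Finset.range K, r j) ≤
    ∑ j ∈ Finset.range K, ENNReal.ofReal (r j) := by
  induction K with
  | zero => simp
  | succ K ih =>
    rw [Finset.sum_range_succ, Finset.sum_range_succ]
    exact ENNReal.ofReal_add_le.trans (add_le_add ih le_rfl)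

theorem DE.sum {G : α → ℕ → ℝ → ℝ≥0∞} (h : DE fun (p : α × ℕ) x => G p.1 p.2 x)
    {K : α → ℕ} (hK : Computable K) : DE fun a x => ∑ j ∈ Finset.range (K a), G a j x := by
  have hg : ∀ {γ : Type} [Primcodable γ] {l : γ → List ℕ} {k : γ → ℕ}, Computable l →
      Computable k → CQ fun a => rat (((l a)[k a]?).getD 0) := fun hl hk =>
    CQ.rat (Primrec.option_getD.to_comp.comp (by fun_prop) (by fun_prop))
  have h1 : Del fun (q : ((α × ℕ) × List ℕ) × ℕ) x => q.2 < K q.1.1.1 →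
      (rat ((q.1.2[q.2 + 1]?).getD 0) - rat ((q.1.2[q.2]?).getD 0) ≤ 0 ∨
        ENNReal.ofReal (rat ((q.1.2[q.2 + 1]?).getD 0) - rat ((q.1.2[q.2]?).getD 0)) <
          G q.1.1.1 q.2 x) := by
    have h2 : CQ fun q : ((α × ℕ) × List ℕ) × ℕ =>
        rat ((q.1.2[q.2 + 1]?).getD 0) - rat ((q.1.2[q.2]?).getD 0) :=
      (hg (by fun_prop) (by fun_prop)).sub (hg (by fun_prop) (by fun_prop))
    refine (Del.of_computable (RE.cp_lt (by fun_prop) (by fun_prop))).imp
      ((h2.le CQ.zero).or ((DE.cq h2).lt ?_))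
    exact DE.comp (k := fun q : ((α × ℕ) × List ℕ) × ℕ => (q.1.1.1, q.2)) h (by fun_prop)
  have h2 := Del.all (R := fun (q : (α × ℕ) × List ℕ) j x => j < K q.1.1 →
      (rat ((q.2[j + 1]?).getD 0) - rat ((q.2[j]?).getD 0) ≤ 0 ∨
        ENNReal.ofReal (rat ((q.2[j + 1]?).getD 0) - rat ((q.2[j]?).getD 0)) <
          G q.1.1 j x)) h1
  have h3 : Del fun (q : (α × ℕ) × List ℕ) (_ : ℝ) => ENNReal.ofReal (rat q.1.2) <
      ENNReal.ofReal (rat ((q.2[K q.1.1]?).getD 0) - rat ((q.2[0]?).getD 0)) :=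
    (DE.cq (CQ.rat (by fun_prop))).lt (DE.cq ((hg (by fun_prop) (by fun_prop)).sub
      (hg (k := fun _ => 0) (by fun_prop) (by fun_prop))))
  refine (Del.exL (R := fun (p : α × ℕ) l x => (∀ j, j < K p.1 →
      (rat ((l[j + 1]?).getD 0) - rat ((l[j]?).getD 0) ≤ 0 ∨
        ENNReal.ofReal (rat ((l[j + 1]?).getD 0) - rat ((l[j]?).getD 0)) < G p.1 j x)) ∧
      ENNReal.ofReal (rat p.2) <
        ENNReal.ofReal (rat ((l[K p.1]?).getD 0) - rat ((l[0]?).getD 0)))
    (h2.and h3)).of_iff fun a x => ⟨fun h4 => ?_, fun ⟨l, h4, h5⟩ => ?_⟩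
  · obtain ⟨r, h5, h6, h7⟩ := sum_approx _ _ _ h4
    have h8 := fun j => exists_rat_eq (∑ i ∈ Finset.range j, r i)
    choose c hc using h8
    have h9 : ∀ j ≤ K a.1, rat ((((List.range (K a.1 + 1)).map c)[j]?).getD 0) =
        ∑ i ∈ Finset.range j, (r i : ℝ) := fun j hj => by
      have : j < K a.1 + 1 := by omega
      simp [this, hc]
    refine ⟨(List.range (K a.1 + 1)).map c, fun j hj => ?_, ?_⟩
    · rw [h9 (j + 1) (by omega), h9 j (by omega), Finset.sum_range_succ, add_sub_cancel_left]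
      rcases h5 j hj with h | h
      · left; simp [h]
      · right; exact h
    · rw [h9 _ le_rfl, h9 0 (by omega)]
      simpa using h7
  · refine h5.trans_le ?_
    rw [← Finset.sum_range_sub (fun j => rat ((l[j]?).getD 0))]
    refine (ofReal_sum_le' _ _).trans (Finset.sum_le_sum fun j hj => ?_)
    rcases h4 j (Finset.mem_range.1 hj) with h | h
    · rw [ENNReal.ofReal_of_nonpos h]; exact zero_le
    · exact h.le

theorem DE.tsum {G : α → ℕ → ℝ → ℝ≥0∞} (h : DE fun (p : α × ℕ) x => G p.1 p.2 x) :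
    DE fun a x => ∑' j, G a j x := by
  have h1 : DE fun (p : α × ℕ) x => ∑ j ∈ Finset.range p.2, G p.1 j x :=
    DE.sum (G := fun (p : α × ℕ) j x => G p.1 j x)
      (DE.comp (k := fun q : (α × ℕ) × ℕ => (q.1.1, q.2)) h (by fun_prop)) Computable.snd
  exact (DE.iSup (G := fun a K x => ∑ j ∈ Finset.range K, G a j x) h1).of_eq
    fun _ _ => ENNReal.tsum_eq_iSup_nat

theorem DE.nat_mul {G : α → ℝ → ℝ≥0∞} (h : DE G) {K : α → ℕ} (hK : Computable K) :
    DE fun a x => (K a : ℝ≥0∞) * G a x :=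
  (DE.sum (G := fun a _ x => G a x) (h.comp Computable.fst) hK).of_eq fun a x => by simp

theorem Del.isDelta11 {R : ℝ → Prop} (h : Del fun (_ : Unit) x => R x) :
    IsDelta11 {x | R x} := by
  obtain ⟨⟨W, hW, e⟩, ⟨W', hW', e'⟩⟩ := h
  exact ⟨⟨fun q => W ((), q), RE.comp hW (by fun_prop), fun x => e () x⟩,
    ⟨fun q => W' ((), q), RE.comp hW' (by fun_prop), fun x => e' () x⟩⟩

end Pool.Agent.H854Z.LN
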