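import Pool.Agent.H854Z.LN.Det
import Pool.Agent.H854Z.LN.Comp

namespace Pool.Agent.H854Z.LN

open Pool.Agent.Helper446 MeasureTheory ENNReal Set Filter Topology Metric

variable {α : Type} [Primcodable α]

noncomputable def rho (f : ℝ → ℝ) (M : ℕ) (a b : ℝ) (B : Set ℝ) : ℝ≥0∞ :=
  volume (Ioo a b ∩ Ioo (-(M : ℝ)) M ∩ f ⁻¹' B)

/-- the upper density -/
noncomputable def DD (f : ℝ → ℝ) (M : ℕ) (y a b : ℝ) : ℝ≥0∞ :=
  ⨅ N : ℕ, ⨆ n : ℕ, ((n + N + 1 : ℕ) : ℝ≥0∞) *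
    rho f M a b (closedBall y (1 / (((n + N : ℕ) : ℝ) + 1)))

def InB (f : ℝ → ℝ) (M : ℕ) (y r a b : ℝ) (n j : ℕ) : Prop :=
  cl a n (j + 1) ≤ b ∧ -(M : ℝ) ≤ cl a n j ∧ cl a n (j + 1) ≤ M ∧ ∃ e : ℕ, ∀ z : ℕ,
    cl a n j < rat z → rat z < cl a n (j + 1) →
      y ≤ f (rat z) + (r - 1 / ((e : ℝ) + 1)) ∧ f (rat z) ≤ y + (r - 1 / ((e : ℝ) + 1))

open Classical in
theorem rho_ball {f : ℝ → ℝ} (hf : Continuous f) (M : ℕ) (y r a b : ℝ) :
    rho f M a b (ball y r) = ⨆ n : ℕ, ∑' j : ℕ,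
      if InB f M y r a b n j then ENNReal.ofReal (1 / ((n : ℝ) + 1)) else 0 := by
  have hv : ∀ n j : ℕ, ENNReal.ofReal (1 / ((n : ℝ) + 1)) =
      volume (Ioo (cl a n j) (cl a n (j + 1))) := fun n j => by
    rw [Real.volume_Ioo, cl_succ]; congr 1; ring
  have h1 : (⨆ n : ℕ, ∑' j : ℕ,
      if InB f M y r a b n j then ENNReal.ofReal (1 / ((n : ℝ) + 1)) else 0) = ⨆ n : ℕ, ∑' j : ℕ,
      if InB f M y r a b n j then volume (Ioo (cl a n j) (cl a n (j + 1))) else 0 :=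
    iSup_congr fun n => tsum_congr fun j => by rw [hv n j]
  rw [h1]
  apply le_antisymm
  · refine grid_le volume a _ _ ?_
    rintro z ⟨⟨h2, h3⟩, h4⟩
    refine ⟨h2.1.le, ?_⟩
    have h5 : dist (f z) y < r := h4
    obtain ⟨e, he⟩ := exists_nat_one_div_lt (sub_pos.2 h5)
    have h6 : IsOpen (Ioo a b ∩ Ioo (-(M : ℝ)) M ∩ f ⁻¹' ball y (r - 1 / ((e : ℝ) + 1))) :=
      (isOpen_Ioo.inter isOpen_Ioo).inter (isOpen_ball.preimage hf)
    obtain ⟨ε, hε, h7⟩ := Metric.isOpen_iff.1 h6 z ⟨⟨h2, h3⟩, by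
      show dist (f z) y < _
      linarith⟩
    have h8 : ∀ w, z - ε / 2 ≤ w → w ≤ z + ε / 2 → w ∈ Ioo a b ∩ Ioo (-(M : ℝ)) M ∩
        f ⁻¹' ball y (r - 1 / ((e : ℝ) + 1)) := fun w h h' => h7 (by
      rw [mem_ball, Real.dist_eq, abs_lt]; constructor <;> linarith)
    refine ⟨ε / 2, half_pos hε, fun n j h9 h10 => ?_⟩
    have h11 : cl a n j ≤ cl a n (j + 1) := cl_mono a n (Nat.le_succ j)
    refine ⟨(h8 _ (by linarith) h10).1.1.2.le, (h8 _ h9 (by linarith)).1.2.1.le,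
      (h8 _ (by linarith) h10).1.2.2.le, e, fun w h12 h13 => ?_⟩
    have h14 : dist (f (rat w)) y < r - 1 / ((e : ℝ) + 1) := (h8 _ (by linarith) (by linarith)).2
    rw [Real.dist_eq, abs_lt] at h14
    constructor <;> linarith [h14.1, h14.2]
  · refine iSup_le fun n => cells_le volume a n _ _ fun j hj z hz => ?_
    obtain ⟨h2, h3, h4, e, h5⟩ := hj
    refine ⟨⟨⟨(le_cl _ _ _).trans_lt hz.1, hz.2.trans_le h2⟩, h3.trans_lt hz.1,
      hz.2.trans_le h4⟩, ?_⟩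
    have h6 : IsClosed {w | y ≤ f w + (r - 1 / ((e : ℝ) + 1)) ∧
        f w ≤ y + (r - 1 / ((e : ℝ) + 1))} :=
      IsClosed.and (isClosed_le continuous_const (by fun_prop)) (isClosed_le hf continuous_const)
    have h7 := closed_of_rat h6 h5 hz
    have h8 : (0 : ℝ) < 1 / ((e : ℝ) + 1) := by positivity
    show dist (f z) y < r
    rw [Real.dist_eq, abs_lt]
    constructor <;> linarith [h7.1, h7.2]

theorem rho_closedBall {f : ℝ → ℝ} (hf : Continuous f) (M : ℕ) (y r a b : ℝ) :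
    rho f M a b (closedBall y r) = ⨅ e : ℕ, rho f M a b (ball y (r + 1 / ((e : ℝ) + 1))) := by
  unfold rho
  set T : ℕ → Set ℝ := fun e =>
    Ioo a b ∩ Ioo (-(M : ℝ)) M ∩ f ⁻¹' ball y (r + 1 / ((e : ℝ) + 1))
  have hT : Antitone T := fun e e' h => inter_subset_inter_right _ (preimage_mono
    (ball_subset_ball (by
      have : (e : ℝ) ≤ e' := by exact_mod_cast h
      have := one_div_le_one_div_of_le (show (0 : ℝ) < e + 1 by positivity)
        (show (e : ℝ) + 1 ≤ e' + 1 by linarith)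
      linarith)))
  have hTm : ∀ e, NullMeasurableSet (T e) volume := fun e =>
    ((isOpen_Ioo.inter isOpen_Ioo).inter
      (isOpen_ball.preimage hf)).measurableSet.nullMeasurableSet
  rw [← hT.measure_iInter hTm ⟨0, ne_top_of_le_ne_top (measure_Ioo_lt_top (a := a) (b := b)).ne
    (measure_mono (inter_subset_left.trans inter_subset_left))⟩]
  congr 1
  ext z
  simp only [T, mem_iInter, mem_inter_iff, mem_preimage, mem_ball, mem_closedBall]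
  refine ⟨fun h e => ⟨h.1, ?_⟩, fun h => ⟨(h 0).1, ?_⟩⟩
  · have : (0 : ℝ) < 1 / ((e : ℝ) + 1) := by positivity
    linarith [h.2]
  · by_contra hc
    obtain ⟨e, he⟩ := exists_nat_one_div_lt (sub_pos.2 (not_le.1 hc))
    linarith [(h e).2]

theorem CQ.cl {a : α → ℝ} (ha : CQ a) {n j : α → ℕ} (hn : Computable n) (hj : Computable j) :
    CQ fun p => cl (a p) (n p) (j p) := ha.add ((CQ.nat hj).mul (CQ.inv hn))

theorem del_InB {f : ℝ → ℝ} (hf : ComputableFn f) (M : ℕ) {r a b : α → ℝ} (hr : CQ r)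
    (ha : CQ a) (hb : CQ b) {n j : α → ℕ} (hn : Computable n) (hj : Computable j) :
    Del fun p x => InB f M (f x) (r p) (a p) (b p) (n p) (j p) := by
  have h0 : CQ fun p => cl (a p) (n p) (j p) := ha.cl hn hj
  have h1 : CQ fun p => cl (a p) (n p) (j p + 1) := ha.cl hn (by fun_prop)
  have hM : CQ fun _ : α => (M : ℝ) := CQ.nat (Computable.const M)
  refine (h1.le hb).and ((hM.neg.le h0).and ((h1.le hM).and ?_))
  refine Del.ex (R := fun p e x => ∀ z : ℕ, cl (a p) (n p) (j p) < rat z →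
    rat z < cl (a p) (n p) (j p + 1) → f x ≤ f (rat z) + (r p - 1 / ((e : ℝ) + 1)) ∧
      f (rat z) ≤ f x + (r p - 1 / ((e : ℝ) + 1))) ?_
  refine Del.all (R := fun (q : α × ℕ) z x => cl (a q.1) (n q.1) (j q.1) < rat z →
    rat z < cl (a q.1) (n q.1) (j q.1 + 1) →
      f x ≤ f (rat z) + (r q.1 - 1 / ((q.2 : ℝ) + 1)) ∧
      f (rat z) ≤ f x + (r q.1 - 1 / ((q.2 : ℝ) + 1))) ?_
  have hk : Computable fun q : (α × ℕ) × ℕ => q.1.1 := by fun_prop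
  have hz : CQ fun q : (α × ℕ) × ℕ => rat q.2 := CQ.rat Computable.snd
  have hs : CQ fun q : (α × ℕ) × ℕ => r q.1.1 - 1 / ((q.1.2 : ℝ) + 1) :=
    (hr.comp hk).sub (CQ.inv (by fun_prop))
  exact ((h0.comp hk).lt hz).imp ((hz.lt (h1.comp hk)).imp
    ((hf.dr.le ((hf.dr_cq hz).add_cq hs)).and ((hf.dr_cq hz).le (hf.dr.add_cq hs))))

theorem de_ball {f : ℝ → ℝ} (hf : ComputableFn f) (M : ℕ) {r a b : α → ℝ} (hr : CQ r)
    (ha : CQ a) (hb : CQ b) : DE fun p x => rho f M (a p) (b p) (ball (f x) (r p)) := by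
  classical
  refine DE.of_eq ?_ fun p x => rho_ball hf.continuous M (f x) (r p) (a p) (b p)
  refine DE.iSup (G := fun p n x => ∑' j : ℕ,
    if InB f M (f x) (r p) (a p) (b p) n j then ENNReal.ofReal (1 / ((n : ℝ) + 1)) else 0) ?_
  refine DE.tsum (G := fun (q : α × ℕ) j x =>
    if InB f M (f x) (r q.1) (a q.1) (b q.1) q.2 j then ENNReal.ofReal (1 / ((q.2 : ℝ) + 1))
    else 0) ?_
  have hk : Computable fun q : (α × ℕ) × ℕ => q.1.1 := by fun_prop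
  exact DE.ite (DE.cq (CQ.inv (h := fun q : (α × ℕ) × ℕ => q.1.2) (by fun_prop)))
    (del_InB hf M (hr.comp hk) (ha.comp hk) (hb.comp hk) (by fun_prop) (by fun_prop))

theorem de_closedBall {f : ℝ → ℝ} (hf : ComputableFn f) (M : ℕ) {r a b : α → ℝ} (hr : CQ r)
    (ha : CQ a) (hb : CQ b) : DE fun p x => rho f M (a p) (b p) (closedBall (f x) (r p)) := by
  refine DE.of_eq ?_ fun p x => rho_closedBall hf.continuous M (f x) (r p) (a p) (b p)
  refine DE.iInf (G := fun p e x =>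
    rho f M (a p) (b p) (ball (f x) (r p + 1 / ((e : ℝ) + 1)))) ?_
  exact de_ball hf M ((hr.comp Computable.fst).add (CQ.inv Computable.snd))
    (ha.comp Computable.fst) (hb.comp Computable.fst)

theorem de_DD {f : ℝ → ℝ} (hf : ComputableFn f) (M : ℕ) {a b : α → ℝ}
    (ha : CQ a) (hb : CQ b) : DE fun p x => DD f M (f x) (a p) (b p) := by
  refine DE.iInf (G := fun p N x => ⨆ n : ℕ, ((n + N + 1 : ℕ) : ℝ≥0∞) *
    rho f M (a p) (b p) (closedBall (f x) (1 / (((n + N : ℕ) : ℝ) + 1)))) ?_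
  refine DE.iSup (G := fun (q : α × ℕ) n x => ((n + q.2 + 1 : ℕ) : ℝ≥0∞) *
    rho f M (a q.1) (b q.1) (closedBall (f x) (1 / (((n + q.2 : ℕ) : ℝ) + 1)))) ?_
  have hk : Computable fun q : (α × ℕ) × ℕ => q.1.1 := by fun_prop
  exact DE.nat_mul (K := fun q : (α × ℕ) × ℕ => q.2 + q.1.2 + 1)
    (de_closedBall hf M (CQ.inv (h := fun q : (α × ℕ) × ℕ => q.2 + q.1.2) (by fun_prop))
      (ha.comp hk) (hb.comp hk)) (by fun_prop)

theorem de_CC {f : ℝ → ℝ} (hf : ComputableFn f) (M : ℕ) {a b : α → ℝ}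
    (ha : CQ a) (hb : CQ b) : DE fun p x => CC (DD f M (f x)) (a p) (b p) := by
  classical
  unfold CC
  refine DE.iInf (G := fun p e x => ⨆ n : ℕ, ∑' j : ℕ,
    if cl (a p) n (j + 1) ≤ b p ∧ DD f M (f x) (cl (a p) n j) (cl (a p) n (j + 1)) ≤
      ENNReal.ofReal (1 / ((e : ℝ) + 1))
    then DD f M (f x) (cl (a p) n j) (cl (a p) n (j + 1)) else 0) ?_
  refine DE.iSup (G := fun (q : α × ℕ) n x => ∑' j : ℕ,
    if cl (a q.1) n (j + 1) ≤ b q.1 ∧ DD f M (f x) (cl (a q.1) n j) (cl (a q.1) n (j + 1)) ≤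
      ENNReal.ofReal (1 / ((q.2 : ℝ) + 1))
    then DD f M (f x) (cl (a q.1) n j) (cl (a q.1) n (j + 1)) else 0) ?_
  refine DE.tsum (G := fun (q : (α × ℕ) × ℕ) j x =>
    if cl (a q.1.1) q.2 (j + 1) ≤ b q.1.1 ∧
      DD f M (f x) (cl (a q.1.1) q.2 j) (cl (a q.1.1) q.2 (j + 1)) ≤
      ENNReal.ofReal (1 / ((q.1.2 : ℝ) + 1))
    then DD f M (f x) (cl (a q.1.1) q.2 j) (cl (a q.1.1) q.2 (j + 1)) else 0) ?_
  have hk : Computable fun q : ((α × ℕ) × ℕ) × ℕ => q.1.1.1 := by fun_prop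
  have h0 : CQ fun q : ((α × ℕ) × ℕ) × ℕ => cl (a q.1.1.1) q.1.2 q.2 :=
    (ha.comp hk).cl (by fun_prop) (by fun_prop)
  have h1 : CQ fun q : ((α × ℕ) × ℕ) × ℕ => cl (a q.1.1.1) q.1.2 (q.2 + 1) :=
    (ha.comp hk).cl (by fun_prop) (by fun_prop)
  exact DE.ite (de_DD hf M h0 h1) ((h1.le (hb.comp hk)).and ((de_DD hf M h0 h1).le
    (DE.cq (CQ.inv (h := fun q : ((α × ℕ) × ℕ) × ℕ => q.1.1.2) (by fun_prop)))))

/-- the test set -/
def NN (f : ℝ → ℝ) (M : ℕ) : Set ℝ :=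
  {z | (-(M : ℝ) < z ∧ z < M) ∧ (∃ C : ℕ, DD f M (f z) (-(M : ℝ)) M < ENNReal.ofReal C) ∧
    Phi (DD f M (f z)) z}

theorem delta_NN {f : ℝ → ℝ} (hf : ComputableFn f) (M : ℕ) : IsDelta11 (NN f M) := by
  refine Del.isDelta11 ?_
  have hM : ∀ {β : Type} [Primcodable β], CQ fun _ : β => (M : ℝ) := CQ.nat (Computable.const M)
  refine (((DR.cq hM.neg).lt DR.id).and (DR.id.lt (DR.cq hM))).and (Del.and ?_ (Del.and ?_ ?_))
  · exact Del.ex (R := fun (_ : Unit) (C : ℕ) z => DD f M (f z) (-(M : ℝ)) M < ENNReal.ofReal C)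
      ((de_DD hf M hM.neg hM).lt (DE.cq (CQ.nat Computable.snd)))
  · refine Del.all (R := fun (_ : Unit) (e : ℕ) z => ∃ a b : ℕ, rat a < z ∧ z < rat b ∧
      DD f M (f z) (rat a) (rat b) ≤ ENNReal.ofReal (1 / ((e : ℝ) + 1))) ?_
    refine Del.ex (R := fun (q : Unit × ℕ) (a : ℕ) z => ∃ b : ℕ, rat a < z ∧ z < rat b ∧
      DD f M (f z) (rat a) (rat b) ≤ ENNReal.ofReal (1 / ((q.2 : ℝ) + 1))) ?_
    refine Del.ex (R := fun (q : (Unit × ℕ) × ℕ) (b : ℕ) z => rat q.2 < z ∧ z < rat b ∧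
      DD f M (f z) (rat q.2) (rat b) ≤ ENNReal.ofReal (1 / ((q.1.2 : ℝ) + 1))) ?_
    have h0 : CQ fun q : ((Unit × ℕ) × ℕ) × ℕ => rat q.1.2 := CQ.rat (by fun_prop)
    have h1 : CQ fun q : ((Unit × ℕ) × ℕ) × ℕ => rat q.2 := CQ.rat (by fun_prop)
    exact ((DR.cq h0).lt DR.id).and ((DR.id.lt (DR.cq h1)).and ((de_DD hf M h0 h1).le
      (DE.cq (CQ.inv (h := fun q : ((Unit × ℕ) × ℕ) × ℕ => q.1.1.2) (by fun_prop)))))
  · refine Del.all (R := fun (_ : Unit) (e : ℕ) z => ∃ a b : ℕ, rat a < z ∧ z < rat b ∧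
      CC (DD f M (f z)) (rat a) (rat b) ≤
        ENNReal.ofReal ((1 / 2) ^ a * (1 / ((e : ℝ) + 1)))) ?_
    refine Del.ex (R := fun (q : Unit × ℕ) (a : ℕ) z => ∃ b : ℕ, rat a < z ∧ z < rat b ∧
      CC (DD f M (f z)) (rat a) (rat b) ≤
        ENNReal.ofReal ((1 / 2) ^ a * (1 / ((q.2 : ℝ) + 1)))) ?_
    refine Del.ex (R := fun (q : (Unit × ℕ) × ℕ) (b : ℕ) z => rat q.2 < z ∧ z < rat b ∧
      CC (DD f M (f z)) (rat q.2) (rat b) ≤
        ENNReal.ofReal ((1 / 2) ^ q.2 * (1 / ((q.1.2 : ℝ) + 1)))) ?_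
    have h0 : CQ fun q : ((Unit × ℕ) × ℕ) × ℕ => rat q.1.2 := CQ.rat (by fun_prop)
    have h1 : CQ fun q : ((Unit × ℕ) × ℕ) × ℕ => rat q.2 := CQ.rat (by fun_prop)
    exact ((DR.cq h0).lt DR.id).and ((DR.id.lt (DR.cq h1)).and ((de_CC hf M h0 h1).le
      (DE.cq ((CQ.half (h := fun q : ((Unit × ℕ) × ℕ) × ℕ => q.1.2) (by fun_prop)).mul
        (CQ.inv (h := fun q : ((Unit × ℕ) × ℕ) × ℕ => q.1.1.2) (by fun_prop))))))

end Pool.Agent.H854Z.LN
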