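import Pool.Agent.H854Z.LN.Del

namespace Pool.Agent.H854Z.LN

open MeasureTheory ENNReal Set Filter Topology

/-- grid points -/
noncomputable def cl (a : ℝ) (n j : ℕ) : ℝ := a + j * (1 / ((n : ℝ) + 1))

theorem cl_mono (a : ℝ) (n : ℕ) : Monotone (cl a n) := fun i j h => by
  unfold cl
  have : (i : ℝ) ≤ j := by exact_mod_cast h
  have h2 : (0 : ℝ) ≤ 1 / ((n : ℝ) + 1) := by positivity
  nlinarith

theorem cl_succ (a : ℝ) (n j : ℕ) : cl a n (j + 1) = cl a n j + 1 / ((n : ℝ) + 1) := by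
  unfold cl; push_cast; ring

theorem le_cl (a : ℝ) (n j : ℕ) : a ≤ cl a n j := by
  unfold cl
  have : (0 : ℝ) ≤ j * (1 / ((n : ℝ) + 1)) := by positivity
  linarith

theorem cl_rat (a : ℚ) (n j : ℕ) : cl a n j = ((a + j * (1 / ((n : ℚ) + 1)) : ℚ) : ℝ) := by
  unfold cl; push_cast; ring

theorem grid_le (c : Measure ℝ) [NullSingletonClass c] (a : ℝ) (In : ℕ → ℕ → Prop)
    [∀ n j, Decidable (In n j)] (S : Set ℝ)
    (hS : ∀ z ∈ S, a ≤ z ∧ ∃ ε > 0, ∀ n j, z - ε ≤ cl a n j → cl a n (j + 1) ≤ z + ε → In n j) :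
    c S ≤ ⨆ n, ∑' j, if In n j then c (Ioo (cl a n j) (cl a n (j + 1))) else 0 := by
  set U : ℕ → Set ℝ := fun n => ⋃ j, if In n j then Icc (cl a n j) (cl a n (j + 1)) else ∅
  have hU : ∀ n, c (U n) ≤ ∑' j, if In n j then c (Ioo (cl a n j) (cl a n (j + 1))) else 0 := by
    intro n
    refine (measure_iUnion_le _).trans (ENNReal.tsum_le_tsum fun j => ?_)
    by_cases h : In n j
    · simp only [h, if_true]
      exact (measure_congr (Ioo_ae_eq_Icc (μ := c))).symm.le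
    · simp [h]
  set V : ℕ → Set ℝ := fun N => ⋂ n ≥ N, U n
  have hV : Monotone V := fun N N' h => biInter_subset_biInter_left fun n hn => le_trans h hn
  have hSV : S ⊆ ⋃ N, V N := by
    intro z hz
    obtain ⟨haz, ε, hε, h⟩ := hS z hz
    obtain ⟨N, hN⟩ := exists_nat_one_div_lt hε
    refine mem_iUnion.2 ⟨N, mem_iInter₂.2 fun n hn => ?_⟩
    have hn' : (N : ℝ) ≤ n := by exact_mod_cast hn
    have h1 : 1 / ((n : ℝ) + 1) ≤ ε :=
      (one_div_le_one_div_of_le (by positivity) (by linarith)).trans hN.le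
    have hp : (0 : ℝ) < (n : ℝ) + 1 := by positivity
    set j := ⌊(z - a) * ((n : ℝ) + 1)⌋₊
    have h2 : (j : ℝ) ≤ (z - a) * ((n : ℝ) + 1) :=
      Nat.floor_le (mul_nonneg (by linarith) hp.le)
    have h3 : (z - a) * ((n : ℝ) + 1) < j + 1 := Nat.lt_floor_add_one _
    have h4 : cl a n j ≤ z := by
      unfold cl
      rw [mul_one_div, ← le_sub_iff_add_le', div_le_iff₀ hp]; exact h2
    have h5 : z ≤ cl a n (j + 1) := by
      unfold cl
      rw [mul_one_div, ← sub_le_iff_le_add', le_div_iff₀ hp]; push_cast; exact h3.le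
    have h6 := cl_succ a n j
    refine mem_iUnion.2 ⟨j, ?_⟩
    rw [if_pos (h n j (by linarith) (by linarith))]
    exact ⟨h4, h5⟩
  refine (measure_mono hSV).trans ?_
  rw [hV.measure_iUnion]
  refine iSup_mono fun N => le_trans (measure_mono ?_) (hU N)
  exact biInter_subset_of_mem (le_refl N)

theorem cells_le (μ : Measure ℝ) (a : ℝ) (n : ℕ) (In : ℕ → Prop) [∀ j, Decidable (In j)]
    (T : Set ℝ)
    (h : ∀ j, In j → Ioo (cl a n j) (cl a n (j + 1)) ⊆ T) :
    ∑' j, (if In j then μ (Ioo (cl a n j) (cl a n (j + 1))) else 0) ≤ μ T := by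
  set s : ℕ → Set ℝ := fun j => if In j then Ioo (cl a n j) (cl a n (j + 1)) else ∅
  have h1 : ∀ j, s j ⊆ Ioo (cl a n j) (cl a n (j + 1)) := fun j => by
    by_cases h : In j <;> simp [s, h]
  have h2 : Pairwise (Function.onFun Disjoint s) := by
    refine (pairwise_disjoint_on _).2 fun i j hij => Disjoint.mono (h1 i) (h1 j) ?_
    refine disjoint_left.2 fun z hz hz' => ?_
    have := cl_mono a n (show i + 1 ≤ j from hij)
    linarith [hz.2, hz'.1]
  have h3 : ∀ j, MeasurableSet (s j) := fun j => by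
    by_cases h : In j <;> simp [s, h]
  have h4 : ∑' j, (if In j then μ (Ioo (cl a n j) (cl a n (j + 1))) else 0) = μ (⋃ j, s j) := by
    rw [measure_iUnion h2 h3]
    refine tsum_congr fun j => ?_
    by_cases h : In j <;> simp [s, h]
  rw [h4]
  refine measure_mono (iUnion_subset fun j => ?_)
  by_cases hj : In j
  · simpa [s, hj] using h j hj
  · simp [s, hj]

open Classical in
/-- the continuous mass of an interval, computed from the masses `D` of intervals -/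
noncomputable def CC (D : ℝ → ℝ → ℝ≥0∞) (a b : ℝ) : ℝ≥0∞ :=
  ⨅ e : ℕ, ⨆ n : ℕ, ∑' j : ℕ,
    if cl a n (j + 1) ≤ b ∧ D (cl a n j) (cl a n (j + 1)) ≤ ENNReal.ofReal (1 / ((e : ℝ) + 1))
    then D (cl a n j) (cl a n (j + 1)) else 0

def Phi (D : ℝ → ℝ → ℝ≥0∞) (z : ℝ) : Prop :=
  (∀ e : ℕ, ∃ a b : ℕ, rat a < z ∧ z < rat b ∧
    D (rat a) (rat b) ≤ ENNReal.ofReal (1 / ((e : ℝ) + 1))) ∧
  ∀ e : ℕ, ∃ i b : ℕ, rat i < z ∧ z < rat b ∧
    CC D (rat i) (rat b) ≤ ENNReal.ofReal ((1 / 2) ^ i * (1 / ((e : ℝ) + 1)))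

section det

set_option linter.unusedSectionVars false

variable (m : Measure ℝ) [IsFiniteMeasure m]

/-- the non-atoms -/
def NA : Set ℝ := {z | m {z} = 0}

theorem countable_atoms : (NA m)ᶜ.Countable := by
  have := Measure.countable_meas_level_set_pos (μ := m) (g := id) measurable_id
  refine this.mono fun z hz => ?_
  simpa [NA, pos_iff_ne_zero] using hz

theorem meas_of_NA {T : Set ℝ} (h : NA m ⊆ T) : MeasurableSet T := by
  have : Tᶜ.Countable := (countable_atoms m).mono (compl_subset_compl.2 h)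
  simpa using this.measurableSet.compl

/-- the continuous part -/
noncomputable def cont : Measure ℝ := m.restrict (NA m)

instance : IsFiniteMeasure (cont m) := by unfold cont; infer_instance

instance : NullSingletonClass (cont m) := ⟨fun z => by
  unfold cont
  rw [Measure.restrict_apply (measurableSet_singleton z)]
  by_cases h : z ∈ NA m
  · exact measure_mono_null inter_subset_left h
  · rw [singleton_inter_eq_empty.2 h, measure_empty]⟩

theorem cont_le (s : Set ℝ) : cont m s ≤ m s := Measure.restrict_le_self s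

theorem cont_apply (s : Set ℝ) : cont m s = m (s ∩ NA m) :=
  Measure.restrict_apply' (meas_of_NA m Subset.rfl)

theorem eq_zero_of_le_inv {x : ℝ≥0∞} (h : ∀ e : ℕ, x ≤ ENNReal.ofReal (1 / ((e : ℝ) + 1))) :
    x = 0 := by
  have h1 : Tendsto (fun e : ℕ => ENNReal.ofReal (1 / ((e : ℝ) + 1))) atTop (𝓝 0) := by
    have := ENNReal.tendsto_ofReal tendsto_one_div_add_atTop_nhds_zero_nat
    simpa using this
  exact le_antisymm (ge_of_tendsto' h1 h) zero_le

/-- small closed intervals have small neighbourhoods -/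
theorem exists_small (μ : Measure ℝ) [IsFiniteMeasure μ] {s t : ℝ} (hst : s ≤ t)
    (h : μ (Icc s t) = 0)
    {w : ℝ≥0∞} (hw : 0 < w) : ∃ ε > 0, μ (Ioo (s - ε) (t + ε)) ≤ w := by
  have h1 : Tendsto (fun r => μ (Metric.cthickening r (Icc s t))) (𝓝 0) (𝓝 (μ (Icc s t))) :=
    tendsto_measure_cthickening_of_isCompact isCompact_Icc
  rw [h] at h1
  have h2 : ∀ᶠ r in 𝓝[>] (0 : ℝ), μ (Metric.cthickening r (Icc s t)) < w :=
    (h1.eventually (gt_mem_nhds hw)).filter_mono nhdsWithin_le_nhds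
  obtain ⟨ε, h3, h4⟩ := (h2.and self_mem_nhdsWithin).exists
  refine ⟨ε, h4, le_trans ?_ h3.le⟩
  · refine measure_mono fun z hz => ?_
    have h4' : (0 : ℝ) < ε := h4
    refine Metric.mem_cthickening_of_dist_le z (max s (min z t)) ε _
      ⟨le_max_left _ _, max_le hst (min_le_right _ _)⟩ ?_
    rw [Real.dist_eq, abs_le]
    obtain ⟨h5, h6⟩ := hz
    constructor
    · have : max s (min z t) ≤ z + ε := max_le (by linarith) ((min_le_left _ _).trans (by linarith))
      linarith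
    · have : z - ε ≤ max s (min z t) :=
        le_trans (le_min (by linarith) (by linarith)) (le_max_right _ _)
      linarith

variable {D : ℝ → ℝ → ℝ≥0∞}

theorem inv_pos' (e : ℕ) : 0 < ENNReal.ofReal (1 / ((e : ℝ) + 1)) :=
  ENNReal.ofReal_pos.2 (by positivity)

theorem CC_eq (hD : ∀ a b : ℚ, D a b = m (Ioo (a : ℝ) b)) (a : ℚ) (b : ℝ) :
    CC D a b = cont m (Ioo (a : ℝ) b) := by
  have hc : ∀ n j, D (cl a n j) (cl a n (j + 1)) = m (Ioo (cl a n j) (cl a n (j + 1))) :=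
    fun n j => by rw [cl_rat, cl_rat, hD]
  unfold CC
  simp only [hc]
  apply le_antisymm
  · set T : ℕ → Set ℝ := fun e => Ioo (a : ℝ) b ∩ {z | m {z} ≤ ENNReal.ofReal (1 / ((e : ℝ) + 1))}
    have hT : Antitone T := fun e e' h => inter_subset_inter_right _ fun z hz => by
      refine le_trans hz (ENNReal.ofReal_le_ofReal ?_)
      have : (e : ℝ) ≤ e' := by exact_mod_cast h
      exact one_div_le_one_div_of_le (by positivity) (by linarith)
    have hTm : ∀ e, NullMeasurableSet (T e) m := fun e =>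
      (measurableSet_Ioo.inter (meas_of_NA m fun z (hz : m {z} = 0) => by
        simp [hz])).nullMeasurableSet
    have h1 : cont m (Ioo (a : ℝ) b) = ⨅ e, m (T e) := by
      rw [cont_apply, ← hT.measure_iInter hTm ⟨0, measure_ne_top _ _⟩]
      congr 1
      ext z
      simp only [T, mem_iInter, mem_inter_iff, mem_ofPred_eq, NA]
      exact ⟨fun h e => ⟨h.1, by simp [h.2]⟩, fun h => ⟨(h 0).1,
        eq_zero_of_le_inv fun e => (h e).2⟩⟩
    rw [h1]
    refine iInf_mono fun e => iSup_le fun n => cells_le m a n _ _ fun j hj z hz => ?_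
    exact ⟨⟨(le_cl _ _ _).trans_lt hz.1, hz.2.trans_le hj.1⟩,
      le_trans (measure_mono (singleton_subset_iff.2 hz)) hj.2⟩
  · refine le_iInf fun e => ?_
    have h1 : cont m (Ioo (a : ℝ) b) = cont m (Ioo (a : ℝ) b ∩ NA m) := by
      rw [cont_apply, cont_apply, inter_assoc, inter_self]
    rw [h1]
    refine (grid_le (cont m) a (fun n j => cl a n (j + 1) ≤ b ∧
      m (Ioo (cl a n j) (cl a n (j + 1))) ≤ ENNReal.ofReal (1 / ((e : ℝ) + 1))) _ ?_).trans ?_
    · rintro z ⟨hz, hz'⟩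
      refine ⟨hz.1.le, ?_⟩
      obtain ⟨ε, hε, h2⟩ := exists_small m (le_refl z) (by rw [Icc_self]; exact hz') (inv_pos' e)
      refine ⟨min ε (b - z), lt_min hε (sub_pos.2 hz.2), fun n j h3 h4 => ⟨?_, ?_⟩⟩
      · linarith [min_le_right ε (b - z)]
      · refine le_trans (measure_mono (Ioo_subset_Ioo ?_ ?_)) h2
        · linarith [min_le_left ε (b - z)]
        · linarith [min_le_left ε (b - z)]
    · refine iSup_mono fun n => ENNReal.tsum_le_tsum fun j => ?_
      split_ifs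
      · exact cont_le m _
      · exact le_rfl

theorem D_rat (hD : ∀ a b : ℚ, D a b = m (Ioo (a : ℝ) b)) (a b : ℕ) :
    D (rat a) (rat b) = m (Ioo (rat a) (rat b)) := by
  obtain ⟨p, hp⟩ := rat_isRat a
  obtain ⟨q, hq⟩ := rat_isRat b
  rw [hp, hq, hD]

theorem CC_rat (hD : ∀ a b : ℚ, D a b = m (Ioo (a : ℝ) b)) (a : ℕ) (b : ℝ) :
    CC D (rat a) b = cont m (Ioo (rat a) b) := by
  obtain ⟨p, hp⟩ := rat_isRat a
  rw [hp, CC_eq m hD]

theorem phi_null (hD : ∀ a b : ℚ, D a b = m (Ioo (a : ℝ) b)) : m {z | Phi D z} = 0 := by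
  have h1 : {z | Phi D z} ⊆ NA m := fun z hz => eq_zero_of_le_inv fun e => by
    obtain ⟨a, b, h1, h2, h3⟩ := hz.1 e
    rw [D_rat m hD] at h3
    exact le_trans (measure_mono (singleton_subset_iff.2 (mem_Ioo.2 ⟨h1, h2⟩))) h3
  have h2 : m {z | Phi D z} = cont m {z | Phi D z} := by
    rw [cont_apply, inter_eq_left.2 h1]
  rw [h2]
  have h3 : ∀ e : ℕ, cont m {z | Phi D z} ≤ 2 * ENNReal.ofReal (1 / ((e : ℝ) + 1)) := by
    intro e
    set w : ℕ → ℝ≥0∞ := fun i => ENNReal.ofReal ((1 / 2) ^ i * (1 / ((e : ℝ) + 1)))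
    set V : ℕ → Set ℝ := fun i => ⋃ b : {b : ℕ // cont m (Ioo (rat i) (rat b)) ≤ w i},
      Ioo (rat i) (rat b.1)
    have h4 : {z | Phi D z} ⊆ ⋃ i, V i := fun z hz => by
      obtain ⟨i, b, h5, h6, h7⟩ := hz.2 e
      rw [CC_rat m hD] at h7
      exact mem_iUnion.2 ⟨i, mem_iUnion.2 ⟨⟨b, h7⟩, h5, h6⟩⟩
    have h5 : ∀ i, cont m (V i) ≤ w i := fun i => by
      have hd : Directed (· ⊆ ·) fun b : {b : ℕ // cont m (Ioo (rat i) (rat b)) ≤ w i} =>
          Ioo (rat i) (rat b.1) := fun b b' => by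
        rcases le_total (rat b.1) (rat b'.1) with h | h
        · exact ⟨b', Ioo_subset_Ioo_right h, Subset.rfl⟩
        · exact ⟨b, Subset.rfl, Ioo_subset_Ioo_right h⟩
      rw [hd.measure_iUnion]
      exact iSup_le fun b => b.2
    refine (measure_mono h4).trans ((measure_iUnion_le _).trans
      ((ENNReal.tsum_le_tsum h5).trans (le_of_eq ?_)))
    have h6 : ∀ i, w i = (2⁻¹ : ℝ≥0∞) ^ i * ENNReal.ofReal (1 / ((e : ℝ) + 1)) := fun i => by
      simp only [w]
      rw [ENNReal.ofReal_mul (by positivity), ENNReal.ofReal_pow (by norm_num), one_div,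
        ENNReal.ofReal_inv_of_pos (by norm_num)]
      simp
    simp only [h6]
    rw [ENNReal.tsum_mul_right, ENNReal.tsum_geometric_two]
  have h4 : Tendsto (fun e : ℕ => 2 * ENNReal.ofReal (1 / ((e : ℝ) + 1))) atTop (𝓝 0) := by
    have := ENNReal.Tendsto.const_mul (a := 2)
      (ENNReal.tendsto_ofReal tendsto_one_div_add_atTop_nhds_zero_nat) (Or.inr (by simp))
    simpa using this
  exact le_antisymm (ge_of_tendsto' h4 h3) zero_le

theorem phi_A (hD : ∀ a b : ℚ, D a b = m (Ioo (a : ℝ) b)) {z : ℝ} (hz : m {z} = 0) (e : ℕ) :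
    ∃ a b : ℕ, rat a < z ∧ z < rat b ∧
      D (rat a) (rat b) ≤ ENNReal.ofReal (1 / ((e : ℝ) + 1)) := by
  obtain ⟨ε, hε, h2⟩ := exists_small m (le_refl z) (by rw [Icc_self]; exact hz) (inv_pos' e)
  obtain ⟨a, h3, h4⟩ := exists_rat_btwn' (show z - ε < z by linarith)
  obtain ⟨b, h5, h6⟩ := exists_rat_btwn' (show z < z + ε by linarith)
  refine ⟨a, b, h4, h5, ?_⟩
  rw [D_rat m hD]
  exact le_trans (measure_mono (Ioo_subset_Ioo h3.le h6.le)) h2

theorem phi_exists (hD : ∀ a b : ℚ, D a b = m (Ioo (a : ℝ) b)) {P X : Set ℝ} (hP : IsClosed P)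
    (hX : IsOpen X) (hP0 : m Pᶜ = 0) (hX0 : m Xᶜ = 0) {z₀ : ℝ} (h0 : z₀ ∈ P) (h0' : z₀ ∈ X)
    (hz₀ : m {z₀} = 0) : ∃ z ∈ P, z ∈ X ∧ Phi D z := by
  by_cases hc : cont m = 0
  · refine ⟨z₀, h0, h0', phi_A m hD hz₀, fun e => ?_⟩
    obtain ⟨a, -, h4⟩ := exists_rat_btwn' (show z₀ - 1 < z₀ by linarith)
    obtain ⟨b, h5, -⟩ := exists_rat_btwn' (show z₀ < z₀ + 1 by linarith)
    refine ⟨a, b, h4, h5, ?_⟩
    rw [CC_rat m hD, hc]; simp
  set K := (cont m).support
  have hK : IsClosed K := Measure.isClosed_support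
  have hK0 : cont m Kᶜ = 0 := Measure.measure_compl_support
  have hKP : K ⊆ P := Measure.support_subset_of_isClosed hP
    (le_antisymm ((cont_le m _).trans hP0.le) zero_le)
  have hmeet : ∀ s : Set ℝ, 0 < cont m s → ∃ z ∈ K, z ∈ s ∧ m {z} = 0 := by
    intro s hs
    have h1 : 0 < cont m (s ∩ NA m) := by
      rw [cont_apply, inter_assoc, inter_self, ← cont_apply]; exact hs
    obtain ⟨z, ⟨h2, h3⟩, h4⟩ := Measure.nonempty_inter_support_of_pos h1
    exact ⟨z, h4, h2, h3⟩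
  have : CompleteSpace K := hK.completeSpace_coe
  set O : ℕ → Set ℝ := fun e => {z | ∃ a b : ℕ, rat a < z ∧ z < rat b ∧
    D (rat a) (rat b) ≤ ENNReal.ofReal (1 / ((e : ℝ) + 1))}
  set O' : ℕ → Set ℝ := fun e => {z | ∃ i b : ℕ, rat i < z ∧ z < rat b ∧
    CC D (rat i) (rat b) ≤ ENNReal.ofReal ((1 / 2) ^ i * (1 / ((e : ℝ) + 1)))}
  have hop : ∀ Q : ℕ → ℕ → Prop, IsOpen {z | ∃ a b : ℕ, rat a < z ∧ z < rat b ∧ Q a b} := by
    intro Q
    rw [isOpen_iff_mem_nhds]
    rintro z ⟨a, b, h1, h2, h3⟩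
    filter_upwards [Ioo_mem_nhds h1 h2] with w hw using ⟨a, b, hw.1, hw.2, h3⟩
  have hdense : ∀ T : Set ℝ, (∀ z ∈ K, ∀ ε > 0, ∃ w ∈ K, w ∈ T ∧ w ∈ Ioo (z - ε) (z + ε)) →
      Dense ((↑) ⁻¹' T : Set K) := by
    intro T hT
    rw [Metric.dense_iff]
    intro z ε hε
    obtain ⟨w, h1, h2, h3⟩ := hT z z.2 ε hε
    refine ⟨⟨w, h1⟩, ?_, h2⟩
    rw [Metric.mem_ball, Subtype.dist_eq, Real.dist_eq, abs_lt]
    constructor <;> linarith [h3.1, h3.2]
  have hd1 : ∀ e, Dense ((↑) ⁻¹' (O e) : Set K) := fun e => hdense _ fun z hz ε hε => by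
    have h1 : 0 < cont m (Ioo (z - ε) (z + ε)) :=
      (Measure.mem_support_iff_forall z).1 hz _ (Ioo_mem_nhds (by linarith) (by linarith))
    obtain ⟨w, h2, h3, h4⟩ := hmeet _ h1
    exact ⟨w, h2, phi_A m hD h4 e, h3⟩
  have hd2 : ∀ e, Dense ((↑) ⁻¹' (O' e) : Set K) := fun e => hdense _ fun z hz ε hε => by
    obtain ⟨i, h1, h2⟩ := exists_rat_btwn' (show z - ε < z by linarith)
    have hne : (K ∩ Ioi (rat i)).Nonempty := ⟨z, hz, h2⟩
    have hbd : BddBelow (K ∩ Ioi (rat i)) := ⟨rat i, fun w hw => le_of_lt hw.2⟩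
    set t := sInf (K ∩ Ioi (rat i))
    have h3 : t ≤ z := csInf_le hbd ⟨hz, h2⟩
    have h4 : rat i ≤ t := le_csInf hne fun w hw => le_of_lt hw.2
    have h5 : cont m (Icc (rat i) t) = 0 := by
      rw [← measure_congr (Ioo_ae_eq_Icc (μ := cont m))]
      refine measure_mono_null (t := Kᶜ) (fun w hw (hwK : w ∈ K) => ?_) hK0
      exact absurd (csInf_le hbd ⟨hwK, hw.1⟩) (not_le.2 hw.2)
    obtain ⟨δ, hδ, h6⟩ := exists_small (cont m) h4 h5
      (w := ENNReal.ofReal ((1 / 2) ^ i * (1 / ((e : ℝ) + 1))))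
      (ENNReal.ofReal_pos.2 (by positivity))
    obtain ⟨b, h7, h8⟩ := exists_rat_btwn' (show t < min (t + δ) (z + ε) from
      lt_min (by linarith) (by linarith))
    obtain ⟨w, ⟨h9, h10⟩, h11⟩ := exists_lt_of_csInf_lt hne h7
    have h10' : rat i < w := h10
    refine ⟨w, h9, ⟨i, b, h10', h11, ?_⟩, by linarith,
      by linarith [min_le_right (t + δ) (z + ε)]⟩
    rw [CC_rat m hD]
    refine le_trans (measure_mono (Ioo_subset_Ioo (by linarith) ?_)) h6
    linarith [min_le_left (t + δ) (z + ε)]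
  have hG : Dense (⋂ e, ((↑) ⁻¹' (O e) ∩ (↑) ⁻¹' (O' e) : Set K)) :=
    dense_iInter_of_isOpen
      (fun e => ((hop _).preimage continuous_subtype_val).inter
        ((hop _).preimage continuous_subtype_val))
      (fun e => (hd1 e).inter_of_isOpen_left (hd2 e) ((hop _).preimage continuous_subtype_val))
  have hXp : 0 < cont m X := by
    have h1 : cont m Xᶜ = 0 := le_antisymm ((cont_le m _).trans hX0.le) zero_le
    have h2 : cont m univ ≤ cont m X + cont m Xᶜ := by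
      rw [← union_compl_self X]; exact measure_union_le _ _
    rw [h1, add_zero] at h2
    exact lt_of_lt_of_le (Measure.measure_univ_pos.2 hc) h2
  obtain ⟨w, hw1, hw2, -⟩ := hmeet X hXp
  obtain ⟨z, hz1, hz2⟩ := hG.inter_open_nonempty (((↑) : K → ℝ) ⁻¹' X) (hX.preimage continuous_subtype_val)
    ⟨⟨w, hw1⟩, hw2⟩
  rw [mem_iInter] at hz2
  exact ⟨z, hKP z.2, hz1, fun e => (hz2 e).1, fun e => (hz2 e).2⟩

end det

end Pool.Agent.H854Z.LN
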