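import Pool.Agent.H854Z.LN.Dens

namespace Pool.Agent.H854Z.LN

open MeasureTheory ProbabilityTheory ENNReal Set Filter Topology Metric

section

variable (f : ℝ → ℝ) (M : ℕ)

noncomputable def lam : Measure ℝ := volume.restrict (Ioo (-(M : ℝ)) M)

instance : IsFiniteMeasure (lam M) := by unfold lam; infer_instance

noncomputable def joint : Measure (ℝ × ℝ) := (lam M).map fun z => (f z, z)

instance : IsFiniteMeasure (joint f M) := by unfold joint; infer_instance

noncomputable def nu : Measure ℝ := (joint f M).fst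

instance : IsFiniteMeasure (nu f M) := by unfold nu; infer_instance

noncomputable def ker : Kernel ℝ ℝ := (joint f M).condKernel

instance : IsMarkovKernel (ker f M) := by unfold ker; infer_instance

variable {f}

theorem joint_apply (hf : Measurable f) {E : Set (ℝ × ℝ)} (hE : MeasurableSet E) :
    ∫⁻ y, ker f M y (Prod.mk y ⁻¹' E) ∂(nu f M) =
      volume ({z | (f z, z) ∈ E} ∩ Ioo (-(M : ℝ)) M) := by
  have h1 : nu f M ⊗ₘ ker f M = joint f M :=
    Measure.disintegrate (joint f M) (joint f M).condKernel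
  have h2 : Measurable fun z => (f z, z) := hf.prodMk measurable_id
  rw [← Measure.compProd_apply hE, h1, joint, Measure.map_apply h2 hE, lam,
    Measure.restrict_apply' measurableSet_Ioo]
  rfl

theorem rho_eq (hf : Measurable f) (a b : ℝ) {B : Set ℝ} (hB : MeasurableSet B) :
    rho f M a b B = ((nu f M).withDensity fun y => ker f M y (Ioo a b)) B := by
  rw [withDensity_apply _ hB, ← lintegral_indicator hB]
  have h1 := joint_apply M hf (hB.prod (measurableSet_Ioo (a := a) (b := b)))
  have h2 : rho f M a b B = volume ({z | (f z, z) ∈ B ×ˢ Ioo a b} ∩ Ioo (-(M : ℝ)) M) := by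
    unfold rho
    congr 1
    ext z
    simp only [mem_inter_iff, mem_preimage, mem_ofPred_eq, mem_prod]
    tauto
  rw [h2, ← h1]
  refine lintegral_congr fun y => ?_
  by_cases hy : y ∈ B
  · rw [indicator_of_mem hy, mk_preimage_prod_right hy]
  · rw [indicator_of_notMem hy, mk_preimage_prod_right_eq_empty hy, measure_empty]

theorem rho_nu (hf : Measurable f) {B : Set ℝ} (hB : MeasurableSet B) :
    rho f M (-(M : ℝ)) M B = nu f M B := by
  have h1 := joint_apply M hf (hB.prod (MeasurableSet.univ (α := ℝ)))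
  have h2 : rho f M (-(M : ℝ)) M B =
      volume ({z | (f z, z) ∈ B ×ˢ (univ : Set ℝ)} ∩ Ioo (-(M : ℝ)) M) := by
    unfold rho
    congr 1
    ext z
    simp only [mem_inter_iff, mem_preimage, mem_ofPred_eq, mem_prod, mem_univ]
    tauto
  rw [h2, ← h1, ← lintegral_indicator_one hB]
  refine lintegral_congr fun y => ?_
  by_cases hy : y ∈ B
  · rw [indicator_of_mem hy, mk_preimage_prod_right hy]; simp
  · rw [indicator_of_notMem hy, mk_preimage_prod_right_eq_empty hy, measure_empty]

theorem tendsto_inv_nhdsGT : Tendsto (fun k : ℕ => 1 / ((k : ℝ) + 1)) atTop (𝓝[>] 0) :=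
  tendsto_nhdsWithin_iff.2 ⟨tendsto_one_div_add_atTop_nhds_zero_nat,
    Eventually.of_forall fun k => by simp only [mem_Ioi]; positivity⟩

theorem vol_ball (y : ℝ) (k : ℕ) :
    volume (closedBall y (1 / ((k : ℝ) + 1))) = 2 * ((k + 1 : ℕ) : ℝ≥0∞)⁻¹ := by
  rw [Real.volume_closedBall, ENNReal.ofReal_mul (by norm_num), one_div,
    ENNReal.ofReal_inv_of_pos (by positivity)]
  congr 2
  · simp
  · rw [← ENNReal.ofReal_natCast]; push_cast; rfl

/-- the fibre measures -/
noncomputable def fib (f : ℝ → ℝ) (M : ℕ) (y : ℝ) : Measure ℝ :=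
  (2 * (nu f M).rnDeriv volume y) • ker f M y

theorem ae_DD (hf : Measurable f) (a b : ℝ) :
    ∀ᵐ y ∂(volume : Measure ℝ), DD f M y a b = fib f M y (Ioo a b) := by
  have hm : Measurable fun y => ker f M y (Ioo a b) := Kernel.measurable_coe _ measurableSet_Ioo
  set ρ := (nu f M).withDensity fun y => ker f M y (Ioo a b)
  have : IsFiniteMeasure ρ := isFiniteMeasure_withDensity (ne_top_of_le_ne_top
    (measure_ne_top (nu f M) univ) (by
      rw [← lintegral_one]
      exact lintegral_mono fun y => prob_le_one))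
  filter_upwards [Besicovitch.ae_tendsto_rnDeriv ρ volume,
    Measure.rnDeriv_withDensity_left (μ := nu f M) (ν := volume) hm.aemeasurable
      (Eventually.of_forall fun y => measure_ne_top _ _)] with y h1 h2
  have h3 := ENNReal.Tendsto.const_mul (a := 2) (h1.comp tendsto_inv_nhdsGT) (Or.inr (by simp))
  have h4 : Tendsto (fun k : ℕ => ((k + 1 : ℕ) : ℝ≥0∞) *
      rho f M a b (closedBall y (1 / ((k : ℝ) + 1)))) atTop (𝓝 (2 * ρ.rnDeriv volume y)) := by
    refine h3.congr fun k => ?_
    simp only [Function.comp]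
    rw [vol_ball, rho_eq M hf a b measurableSet_closedBall, ENNReal.div_eq_inv_mul,
      ENNReal.mul_inv (Or.inl (by simp)) (Or.inl (by simp)), inv_inv, ← mul_assoc, ← mul_assoc,
      ENNReal.mul_inv_cancel (by simp) (by simp), one_mul]
  have h5 := h4.limsup_eq
  rw [limsup_eq_iInf_iSup_of_nat'] at h5
  rw [fib, Measure.smul_apply, smul_eq_mul, mul_assoc, mul_comm ((nu f M).rnDeriv volume y),
    ← h2, ← h5]
  rfl

theorem nu_null (hf : Measurable f) {T : Set ℝ} (hT : volume T = 0) :
    nu f M (T ∩ {y | ∃ C : ℕ, DD f M y (-(M : ℝ)) M < ENNReal.ofReal C}) = 0 := by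
  have h1 : T ∩ {y | ∃ C : ℕ, DD f M y (-(M : ℝ)) M < ENNReal.ofReal C} =
      ⋃ C : ℕ, T ∩ {y | DD f M y (-(M : ℝ)) M < ENNReal.ofReal C} := by
    ext y; simp
  rw [h1, measure_iUnion_null_iff]
  intro C
  have h2 := (Besicovitch.vitaliFamily (nu f M)).measure_le_of_frequently_le
    (ρ := nu f M) ((C : NNReal) • (volume : Measure ℝ)) Measure.AbsolutelyContinuous.rfl
    (T ∩ {y | DD f M y (-(M : ℝ)) M < ENNReal.ofReal C}) (by
      rintro y ⟨-, hy⟩
      have hy' : DD f M y (-(M : ℝ)) M < ENNReal.ofReal C := hy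
      unfold DD at hy'
      obtain ⟨N, hN⟩ := iInf_lt_iff.1 hy'
      refine ((Besicovitch.tendsto_filterAt (nu f M) y).comp tendsto_inv_nhdsGT).frequently ?_
      refine Eventually.frequently (eventually_atTop.2 ⟨N, fun k hk => ?_⟩)
      obtain ⟨n, rfl⟩ : ∃ n, k = n + N := ⟨k - N, by omega⟩
      have h3 := ((le_iSup _ n).trans hN.le)
      rw [rho_nu M hf measurableSet_closedBall] at h3
      simp only [Function.comp, Measure.smul_apply]
      rw [vol_ball, ENNReal.smul_def, smul_eq_mul]
      have h4 : nu f M (closedBall y (1 / (((n + N : ℕ) : ℝ) + 1))) ≤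
          (C : ℝ≥0∞) * ((n + N + 1 : ℕ) : ℝ≥0∞)⁻¹ := by
        rw [← div_eq_mul_inv, ENNReal.le_div_iff_mul_le (Or.inl (by simp)) (Or.inl (by simp)),
          mul_comm]
        simpa using h3
      refine h4.trans ?_
      simp only [ENNReal.coe_natCast]
      gcongr
      exact le_mul_of_one_le_left zero_le (by norm_num))
  refine le_antisymm (h2.trans ?_) zero_le
  rw [Measure.smul_apply, measure_mono_null inter_subset_left hT, smul_zero]

/-- good points of the target -/
def Good (f : ℝ → ℝ) (M : ℕ) (y : ℝ) : Prop :=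
  (nu f M).rnDeriv volume y < ∞ ∧ ∀ a b : ℚ, DD f M y a b = fib f M y (Ioo (a : ℝ) b)

theorem ae_good (hf : Measurable f) : ∀ᵐ y ∂(volume : Measure ℝ), Good f M y := by
  refine (Measure.rnDeriv_lt_top _ _).and ?_
  rw [ae_all_iff]
  intro a
  rw [ae_all_iff]
  intro b
  exact ae_DD M hf a b

theorem Good.finite {y : ℝ} (h : Good f M y) : IsFiniteMeasure (fib f M y) :=
  ⟨by
    rw [fib, Measure.smul_apply, smul_eq_mul, measure_univ, mul_one]
    exact ENNReal.mul_lt_top (by simp) h.1⟩

theorem ae_good_nu (hf : Measurable f) : ∀ᵐ y ∂(nu f M),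
    (∃ C : ℕ, DD f M y (-(M : ℝ)) M < ENNReal.ofReal C) →
      Good f M y ∧ (nu f M).rnDeriv volume y ≠ 0 := by
  obtain ⟨S, hS, h1, h2⟩ := Measure.mutuallySingular_singularPart (nu f M) volume
  have h3 : ∀ᵐ y ∂(nu f M), y ∈ S → (nu f M).rnDeriv volume y ≠ 0 := by
    rw [Measure.haveLebesgueDecomposition_add (nu f M) volume, ae_add_measure_iff,
      ← Measure.haveLebesgueDecomposition_add (nu f M) volume]
    constructor
    · filter_upwards [measure_eq_zero_iff_ae_notMem.1 h1] with y hy hy' using absurd hy' hy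
    · rw [ae_withDensity_iff (Measure.measurable_rnDeriv _ _)]
      exact Eventually.of_forall fun y hy _ => hy
  have h4 := measure_eq_zero_iff_ae_notMem.1 (nu_null M hf h2)
  have h5 := measure_eq_zero_iff_ae_notMem.1 (nu_null M hf (ae_iff.1 (ae_good M hf)))
  filter_upwards [h3, h4, h5] with y h6 h7 h8 hG
  refine ⟨by_contra fun hc => h8 ⟨hc, hG⟩, h6 (by_contra fun hc => h7 ⟨hc, hG⟩)⟩

theorem meas_DD (hf : Continuous f) (a b : ℝ) : Measurable fun y => DD f M y a b := by
  refine Measurable.iInf fun N => Measurable.iSup fun n => Measurable.const_mul ?_ _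
  have h1 : MeasurableSet {p : ℝ × ℝ | dist (f p.2) p.1 ≤ 1 / (((n + N : ℕ) : ℝ) + 1)} :=
    (isClosed_le (by fun_prop) continuous_const).measurableSet
  have h2 := measurable_measure_prodMk_left
    (ν := volume.restrict (Ioo a b ∩ Ioo (-(M : ℝ)) M)) h1
  convert h2 using 2 with y
  rw [Measure.restrict_apply' (measurableSet_Ioo.inter measurableSet_Ioo), rho, inter_comm]
  rfl

theorem meas_CC (hf : Continuous f) (a b : ℝ) : Measurable fun y => CC (DD f M y) a b := by
  classical
  unfold CC
  refine Measurable.iInf fun e => Measurable.iSup fun n => Measurable.tsum fun j => ?_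
  refine Measurable.ite ?_ (meas_DD M hf _ _) measurable_const
  exact (MeasurableSet.const _).inter (measurableSet_le (meas_DD M hf _ _) measurable_const)

theorem NN_null (hf : Continuous f) : volume (NN f M) = 0 := by
  set E : Set (ℝ × ℝ) := {p | (∃ C : ℕ, DD f M p.1 (-(M : ℝ)) M < ENNReal.ofReal C) ∧
    Phi (DD f M p.1) p.2}
  have hE : MeasurableSet E := by
    have h0 : ∀ a b : ℕ, Measurable fun p : ℝ × ℝ => rat a < p.2 ∧ p.2 < rat b := fun a b =>
      (measurableSet_setOfPred.1 (measurableSet_lt measurable_const measurable_snd)).and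
        (measurableSet_setOfPred.1 (measurableSet_lt measurable_snd measurable_const))
    refine measurableSet_setOfPred.2 (Measurable.and (Measurable.exists fun C => ?_)
      (Measurable.and (Measurable.forall fun e => Measurable.exists fun a =>
        Measurable.exists fun b => ?_) (Measurable.forall fun e => Measurable.exists fun a =>
        Measurable.exists fun b => ?_)))
    · exact measurableSet_setOfPred.1 (measurableSet_lt ((meas_DD M hf _ _).comp measurable_fst)
        measurable_const)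
    · simp only [← and_assoc]
      exact (h0 a b).and (measurableSet_setOfPred.1 (measurableSet_le
        ((meas_DD M hf _ _).comp measurable_fst) measurable_const))
    · simp only [← and_assoc]
      exact (h0 a b).and (measurableSet_setOfPred.1 (measurableSet_le
        ((meas_CC M hf _ _).comp measurable_fst) measurable_const))
  have h1 : NN f M = {z | (f z, z) ∈ E} ∩ Ioo (-(M : ℝ)) M := by
    ext z
    simp only [NN, E, mem_ofPred_eq, mem_inter_iff, mem_Ioo]
    tauto
  rw [h1, ← joint_apply M hf.measurable hE, ← lintegral_zero (μ := nu f M)]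
  refine lintegral_congr_ae ?_
  filter_upwards [ae_good_nu M hf.measurable] with y hy
  by_cases hG : ∃ C : ℕ, DD f M y (-(M : ℝ)) M < ENNReal.ofReal C
  · obtain ⟨h2, h3⟩ := hy hG
    have := h2.finite
    have h4 := phi_null (fib f M y) h2.2
    rw [fib, Measure.smul_apply, smul_eq_mul, mul_eq_zero, mul_eq_zero] at h4
    refine measure_mono_null (fun z hz => hz.2) ?_
    rcases h4 with (h4 | h4) | h4
    · simp at h4
    · exact absurd h4 h3
    · exact h4
  · exact measure_mono_null (t := ∅) (fun z hz => absurd hz.1 hG) measure_empty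

theorem ae_fib_null (hf : Measurable f) {E : Set (ℝ × ℝ)} (hE : MeasurableSet E)
    (h0 : volume ({z | (f z, z) ∈ E} ∩ Ioo (-(M : ℝ)) M) = 0) :
    ∀ᵐ y ∂(volume : Measure ℝ), fib f M y (Prod.mk y ⁻¹' E) = 0 := by
  rw [← joint_apply M hf hE, lintegral_eq_zero_iff (Kernel.measurable_kernel_prodMk_left hE)] at h0
  have h1 : volume.withDensity ((nu f M).rnDeriv volume) ≪ nu f M :=
    (Measure.withDensity_rnDeriv_le _ _).absolutelyContinuous
  have h2 : ∀ᵐ y ∂(volume.withDensity ((nu f M).rnDeriv volume)),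
      ker f M y (Prod.mk y ⁻¹' E) = 0 := h1.ae_le h0
  rw [ae_withDensity_iff (Measure.measurable_rnDeriv _ _)] at h2
  filter_upwards [h2] with y hy
  rw [fib, Measure.smul_apply, smul_eq_mul]
  by_cases h : (nu f M).rnDeriv volume y = 0
  · simp [h]
  · have h3 : ker f M y (Prod.mk y ⁻¹' E) = 0 := hy h
    rw [h3, mul_zero]

end

theorem luzin_of_reflects {f : ℝ → ℝ} (hf : ComputableFn f) (hr : ReflectsRandomness f) :
    LuzinN f := by
  intro S hS
  have hc := hf.continuous
  obtain ⟨S', hSS', hS'm, hS'⟩ := exists_measurable_superset_of_null hS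
  have h1 : f '' S ⊆ ⋃ M : ℕ, f '' (S' ∩ Ioo (-(M : ℝ)) M) := by
    rintro _ ⟨z, hz, rfl⟩
    obtain ⟨M, hM⟩ := exists_nat_gt |z|
    rw [abs_lt] at hM
    exact mem_iUnion.2 ⟨M, z, ⟨hSS' hz, hM⟩, rfl⟩
  refine measure_mono_null h1 (measure_iUnion_null fun M => ?_)
  rw [measure_eq_zero_iff_ae_notMem]
  have h2 := ae_fib_null M hc.measurable (E := {p | p.2 ∈ S'}) (measurable_snd hS'm)
    (measure_mono_null inter_subset_left hS')
  have h3 := ae_fib_null M hc.measurable (E := {p | f p.2 ≠ p.1})
    (isOpen_ne_fun (by fun_prop) continuous_fst).measurableSet (by simp)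
  have h4 := ae_fib_null M hc.measurable (E := {p | p.2 ∉ Ioo (-(M : ℝ)) M})
    (measurable_snd measurableSet_Ioo.compl)
    (measure_mono_null (t := ∅) (fun z hz => absurd hz.2 hz.1) measure_empty)
  filter_upwards [h2, h3, h4, ae_good M hc.measurable, measure_eq_zero_iff_ae_notMem.1 ae_random]
    with y h5 h6 h7 h8 h9
  rintro ⟨z₀, ⟨h10, h11⟩, h12⟩
  have := h8.finite
  obtain ⟨z, h13, h14, h15⟩ := phi_exists (fib f M y) h8.2 (P := {z | f z = y})
    (isClosed_eq hc continuous_const) isOpen_Ioo h6 h7 h12 h11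
    (measure_mono_null (singleton_subset_iff.2 h10) h5)
  have h16 : f z = y := h13
  have h17 : Delta11Random (f z) := by
    rw [h16]; exact not_not.1 h9
  refine hr z h17 (NN f M) (delta_NN hf M) (NN_null M hc) ⟨h14, ?_, by rw [h16]; exact h15⟩
  have h18 := h8.2 (-(M : ℚ)) (M : ℚ)
  push_cast at h18
  rw [h16, h18]
  obtain ⟨C, hC⟩ := ENNReal.exists_nat_gt (measure_ne_top (fib f M y) (Ioo (-(M : ℝ)) M))
  exact ⟨C, by simpa using hC⟩

end Pool.Agent.H854Z.LN
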